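import Pool.Agent.Q138.LO.Five

set_option autoImplicit false

/-!
# Manifolds glued from the exterior of the minimally twisted five chain link and five pieces

The link consists of five round circles `C 1, ..., C 5` in the plane, placed counterclockwise
around a ring, where only (cyclically) consecutive circles meet, in an outer and an inner
crossing.  Circle `i` passes over circle `i + 1` at the outer and under it at the inner crossing
for the pairs `(1,2), (3,4), (5,1)`, and the other way round for the pairs `(2,3), (4,5)`.  All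
circles are oriented counterclockwise.  Slopes are measured with the preferred longitudes. Many
hyperbolic manifolds with cusps and small volume are fillings of the exterior `M` of this link.

A closed manifold `Y` is obtained by gluing to each of the five boundary tori of `M` a solid torus, a
twisted interval bundle over the Klein bottle, a Seifert fibred space over the disc with any number
of exceptional fibres (for instance the exterior of a torus knot), or any other manifold `P` with
torus boundary such that the orders on `P` move certain peripheral elements in the same direction.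

Let `μ`, `λ` be the meridian and the longitude of a component. The theorem: let `m ≥ 0`, `k ≥ 1` be
integers. If in all actions of the fundamental groups of the pieces on linear orders

* `μ ^ (-m) * λ ^ (-k)` (component 1),
* `λ` and `μ * λ⁻¹` (component 2),
* `μ * λ⁻¹` (component 3),
* `μ⁻¹ * λ` and `μ ^ (m + k) * λ ^ (-k)` (component 4),
* `μ⁻¹ * λ` (component 5)

move no point in the direction opposite to `μ`, then the fundamental group of `Y` has no nontrivial
homomorphism to a left-orderable group. For solid tori the conditions on the slopes are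
`a₁ ≥ m / k`, `-1 ≤ a₂ < 0`, `a₃ ≥ -1`, `-1 - m / k ≤ a₄ ≤ -1`, `a₅ ≤ -1`; for five solid tori with
`a₁ ≥ -1 - a₄` this is a part of the starting result `FiveChainLink`. If one of the pieces is not a
solid torus then `Y` is in general toroidal.

`Piece`, `KleinGroup`, `kx`, `ky` are defined in `Pool.Agent.Q138.LO.Piece`, `SeifGroup`, `sc`, `sh`,
`InCone` in `Pool.Agent.Q138.LO.Seif`, `GlueGroup` in `Pool.Agent.Q138.LO.Glue`, `Weak`, `Strict`,
`Mark` in `Pool.Agent.Q138.LO.Mark`, `LeftOrderable` in `Pool.Agent.Y479.LS.Aut`.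
-/

namespace Pool.Agent.Results.MP_9ae2f3_gt.FiveChainLinkPieces

open Pool.Agent.Q138.LO Pool.Agent.Q138.LO.Five Pool.Agent.Y479.LS

/-- The ten arcs of the diagram: each circle passes under its neighbours exactly twice, so it
consists of two arcs; `(i, false)` and `(i, true)` are those of circle `i + 1`.  They are named
and described one by one below. -/
abbrev Arc : Type := Fin 5 × Bool

/-- Circle 1 passes under circle 5 at their outer and under circle 2 at their inner crossing;
`T` is the arc of circle 1 through its outer crossing with circle 2, -/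
def T : FreeGroup Arc := FreeGroup.of (0, false)
/-- and `B` the arc of circle 1 through its inner crossing with circle 5. -/
def B : FreeGroup Arc := FreeGroup.of (0, true)
/-- Circle 2 passes under at its two outer crossings; `m2` is its arc through the inner
crossings, -/
def m2 : FreeGroup Arc := FreeGroup.of (1, false)
/-- and `n2` the remaining outermost arc. -/
def n2 : FreeGroup Arc := FreeGroup.of (1, true)
/-- Circle 3 passes under at its two inner crossings; `m3` is its arc through the outer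
crossings, -/
def m3 : FreeGroup Arc := FreeGroup.of (2, false)
/-- and `n3` the remaining innermost arc. -/
def n3 : FreeGroup Arc := FreeGroup.of (2, true)
/-- Circle 4 passes under at its two outer crossings; `m4` is its arc through the inner
crossings, -/
def m4 : FreeGroup Arc := FreeGroup.of (3, false)
/-- and `n4` the remaining outermost arc. -/
def n4 : FreeGroup Arc := FreeGroup.of (3, true)
/-- Circle 5 passes under at its two inner crossings; `m5` is its arc through the outer
crossings, -/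
def m5 : FreeGroup Arc := FreeGroup.of (4, false)
/-- and `n5` the remaining innermost arc. -/
def n5 : FreeGroup Arc := FreeGroup.of (4, true)

/-- The Wirtinger relator of a crossing: the under arc `b` on the right of the over arc `o` is the
conjugate of the under arc `a` on the left. -/
def crossing (o a b : FreeGroup Arc) : FreeGroup Arc := b⁻¹ * (o * a * o⁻¹)

/-- The Wirtinger relators of the crossings of the circles 1, 2 and 2, 3. -/
def wirtinger₁ : Set (FreeGroup Arc) :=
  {crossing T m2 n2, crossing m2 T B, crossing m3 m2 n2, crossing m2 m3 n3}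

/-- The Wirtinger relators of the crossings of the circles 3, 4 and 4, 5. -/
def wirtinger₂ : Set (FreeGroup Arc) :=
  {crossing m3 m4 n4, crossing m4 m3 n3, crossing m5 m4 n4, crossing m4 m5 n5}

/-- The Wirtinger relators of the crossings of the circles 5, 1. -/
def wirtinger₃ : Set (FreeGroup Arc) := {crossing m5 B T, crossing B m5 n5}

/-- The Wirtinger relators of the ten crossings. -/
def wirtinger : Set (FreeGroup Arc) := wirtinger₁ ∪ wirtinger₂ ∪ wirtinger₃

/-- The meridians used for the gluing. -/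
def meridian : Fin 5 → FreeGroup Arc := ![T, m2, m3, m4, m5]

/-- The corresponding preferred (0-framed) longitudes: the over arcs met by a parallel curve that
starts at the meridian arc. -/
def longitude : Fin 5 → FreeGroup Arc :=
  ![m2⁻¹ * m5⁻¹, T⁻¹ * m3, m4⁻¹ * m2, m3⁻¹ * m5, B⁻¹ * m4]

/-- The fundamental group of the closed manifold obtained by gluing the piece `P i` to the boundary
torus `i` of the exterior of the link; the meridian and the longitude are identified with `(P i).u`
and `(P i).v`. -/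
abbrev Grp (P : Fin 5 → Piece) : Type := GlueGroup wirtinger P meridian longitude

/-- `u ^ a * v ^ b` moves no point in the direction opposite to `u`. -/
def IsWeak (P : Piece) (a b : ℤ) : Prop :=
  (∃ F : Mark, F.Ok ∧ F.NonNeg a b ∧ P = F.piece) ∨ Weak P a b

/-- `u ^ a * v ^ b` moves the points that are moved by `u`, in the same direction. -/
def IsStrict (P : Piece) (a b : ℤ) : Prop :=
  (∃ F : Mark, F.Ok ∧ F.Pos a b ∧ P = F.piece) ∨ Strict P a b

/-- The conditions on the five pieces. -/
structure Allowed (m k : ℕ) (P : Fin 5 → Piece) : Prop where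
  one : IsWeak (P 0) (-m) (-k)
  two : IsStrict (P 1) 0 1
  two' : IsWeak (P 1) 1 (-1)
  three : IsWeak (P 2) 1 (-1)
  four : IsWeak (P 3) (-1) 1
  four' : IsWeak (P 3) (m + k) (-k)
  five : IsWeak (P 4) (-1) 1

theorem IsWeak.weak {P : Piece} {a b : ℤ} (h : IsWeak P a b) : Weak P a b := by
  rcases h with ⟨F, h0, h1, rfl⟩ | h
  · exact Mark.weak h0 h1
  · exact h

theorem IsStrict.strict {P : Piece} {a b : ℤ} (h : IsStrict P a b) : Strict P a b := by
  rcases h with ⟨F, h0, h1, rfl⟩ | h
  · exact Mark.strict h0 h1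
  · exact h

/-- `g` moves no point in the direction opposite to `f`, and fixes the fixed points of `f`. -/
def Wk' {X : Type} [LinearOrder X] (f g : X ≃o X) : Prop :=
  ∀ x, (x < f x → x ≤ g x) ∧ (f x < x → g x ≤ x) ∧ (f x = x → g x = x)

/-- `g` moves each point that is moved by `f`, in the same direction, and fixes the fixed points of
`f`. -/
def St' {X : Type} [LinearOrder X] (f g : X ≃o X) : Prop :=
  ∀ x, (x < f x → x < g x) ∧ (f x < x → g x < x) ∧ (f x = x → g x = x)

/-- The conditions on an action. -/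
def Q (m k : ℕ) (i : Fin 5) (X : Type) [LinearOrder X] (f g : X ≃o X) : Prop :=
  (i = 0 → Wk' f (f ^ (-(m : ℤ)) * g ^ (-(k : ℤ)))) ∧
  (i = 1 → St' f (f ^ (0 : ℤ) * g ^ (1 : ℤ)) ∧ Wk' f (f ^ (1 : ℤ) * g ^ (-1 : ℤ))) ∧
  (i = 2 → Wk' f (f ^ (1 : ℤ) * g ^ (-1 : ℤ))) ∧
  (i = 3 → Wk' f (f ^ (-1 : ℤ) * g ^ (1 : ℤ)) ∧ Wk' f (f ^ ((m : ℤ) + k) * g ^ (-(k : ℤ)))) ∧
  (i = 4 → Wk' f (f ^ (-1 : ℤ) * g ^ (1 : ℤ)))

theorem wk_of {P : Piece} {a b : ℤ} (h : Weak P a b) {X : Type} [LinearOrder X]
    (φ : P.K →* (X ≃o X)) : Wk' (φ P.u) (φ P.u ^ a * φ P.v ^ b) := by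
  intro x
  obtain ⟨h1, h2, h3⟩ := h X φ x
  rw [map_mul, map_zpow, map_zpow] at h1 h2
  refine ⟨h1, h2, fun h => ?_⟩
  have := h3 h (P.u ^ a * P.v ^ b)
  rwa [map_mul, map_zpow, map_zpow] at this

theorem st_of {P : Piece} {a b : ℤ} (h : Strict P a b) {X : Type} [LinearOrder X]
    (φ : P.K →* (X ≃o X)) : St' (φ P.u) (φ P.u ^ a * φ P.v ^ b) := by
  intro x
  obtain ⟨h1, h2, h3⟩ := h X φ x
  rw [map_mul, map_zpow, map_zpow] at h1 h2
  refine ⟨h1, h2, fun h => ?_⟩
  have := h3 h (P.u ^ a * P.v ^ b)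
  rwa [map_mul, map_zpow, map_zpow] at this

/-- **The minimally twisted five chain link with pieces.** -/
theorem result (m k : ℕ) (hk : 1 ≤ k) (P : Fin 5 → Piece) (hP : Allowed m k P) :
    (∀ (H : Type) [Group H], LeftOrderable H → ∀ (f : Grp P →* H) g, f g = 1) ∧
      ¬ LeftOrderable (Grp P) := by
  refine glue_trivial (Q m k) (fun i X _ φ => ?_) (fun i X _ φ x h _ => ?_) ?_
  · refine ⟨?_, ?_, ?_, ?_, ?_⟩
    · rintro rfl; exact wk_of hP.one.weak φ
    · rintro rfl; exact ⟨st_of hP.two.strict φ, wk_of hP.two'.weak φ⟩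
    · rintro rfl; exact wk_of hP.three.weak φ
    · rintro rfl; exact ⟨wk_of hP.four.weak φ, wk_of hP.four'.weak φ⟩
    · rintro rfl; exact wk_of hP.five.weak φ
  · fin_cases i
    · exact (hP.one.weak X φ x).2.2 h
    · exact (hP.two'.weak X φ x).2.2 h
    · exact (hP.three.weak X φ x).2.2 h
    · exact (hP.four.weak X φ x).2.2 h
    · exact (hP.five.weak X φ x).2.2 h
  intro X _ β hrel hQ
  have wr : ∀ o a b : FreeGroup Arc, crossing o a b ∈ wirtinger →
      β b = β o * β a * (β o)⁻¹ := by
    intro o a b hab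
    have := hrel _ hab
    rw [crossing, map_mul, map_inv, inv_mul_eq_one, map_mul, map_mul, map_inv] at this
    exact this
  have w1 := wr T m2 n2 (by simp [wirtinger, wirtinger₁])
  have w2 := wr m2 T B (by simp [wirtinger, wirtinger₁])
  have w3 := wr m3 m2 n2 (by simp [wirtinger, wirtinger₁])
  have w4 := wr m2 m3 n3 (by simp [wirtinger, wirtinger₁])
  have w5 := wr m3 m4 n4 (by simp [wirtinger, wirtinger₂])
  have w6 := wr m4 m3 n3 (by simp [wirtinger, wirtinger₂])
  have w7 := wr m5 m4 n4 (by simp [wirtinger, wirtinger₂])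
  have w8 := wr m4 m5 n5 (by simp [wirtinger, wirtinger₂])
  have w9 := wr m5 B T (by simp [wirtinger, wirtinger₃])
  have w10 := wr B m5 n5 (by simp [wirtinger, wirtinger₃])
  have q0 := (hQ 0).1 rfl
  have q1 := (hQ 1).2.1 rfl
  have q2 := (hQ 2).2.2.1 rfl
  have q3 := (hQ 3).2.2.2.1 rfl
  have q4 := (hQ 4).2.2.2.2 rfl
  change Wk' (β T) (β T ^ (-(m : ℤ)) * β (m2⁻¹ * m5⁻¹) ^ (-(k : ℤ))) at q0
  change St' (β m2) (β m2 ^ (0 : ℤ) * β (T⁻¹ * m3) ^ (1 : ℤ)) ∧
    Wk' (β m2) (β m2 ^ (1 : ℤ) * β (T⁻¹ * m3) ^ (-1 : ℤ)) at q1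
  change Wk' (β m3) (β m3 ^ (1 : ℤ) * β (m4⁻¹ * m2) ^ (-1 : ℤ)) at q2
  change Wk' (β m4) (β m4 ^ (-1 : ℤ) * β (m3⁻¹ * m5) ^ (1 : ℤ)) ∧
    Wk' (β m4) (β m4 ^ ((m : ℤ) + k) * β (m3⁻¹ * m5) ^ (-(k : ℤ))) at q3
  change Wk' (β m5) (β m5 ^ (-1 : ℤ) * β (B⁻¹ * m4) ^ (1 : ℤ)) at q4
  simp only [map_mul, map_inv, zpow_zero, zpow_one, one_mul, zpow_neg_one] at q0 q1 q2 q3 q4
  set c := β m2 with hc
  set y := β m3 with hy
  set e := β m4 with he
  set g := β m5 with hg
  set b := β B with hb
  set t := β T with ht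
  -- the word for `T` in terms of `x = B⁻¹`
  have tx : t⁻¹ = g * b⁻¹ * g⁻¹ := by rw [w9]; group
  have cbg : b * (c * g) = c * g * b := by
    have h1 : b = c * g * b * g⁻¹ * c⁻¹ := by
      calc b = c * t * c⁻¹ := w2
        _ = c * (g * b * g⁻¹) * c⁻¹ := by rw [w9]
        _ = _ := by group
    calc b * (c * g) = (c * g * b * g⁻¹ * c⁻¹) * (c * g) := by rw [← h1]
      _ = _ := by group
  have ccb : Commute b (c * g) := cbg
  have R : Cusps m k b⁻¹ y c e g := by
    refine ⟨hk, ?_, ?_, ?_, ?_, ?_, ?_, ?_, ?_, ?_, ?_, ?_, ?_⟩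
    · -- `x` commutes with `c g`
      exact ccb.inv_left.eq
    · -- `c` commutes with `T⁻¹ m3`
      have h1 : t * c * t⁻¹ = y * c * y⁻¹ := by rw [← w1, ← w3]
      rw [← tx]
      calc c * (t⁻¹ * y) = t⁻¹ * (t * c * t⁻¹) * y := by group
        _ = t⁻¹ * (y * c * y⁻¹) * y := by rw [h1]
        _ = _ := by group
    · -- `y` commutes with `e⁻¹ c`
      have h1 : c * y * c⁻¹ = e * y * e⁻¹ := by rw [← w4, ← w6]
      calc y * (e⁻¹ * c) = e⁻¹ * (e * y * e⁻¹) * c := by group
        _ = e⁻¹ * (c * y * c⁻¹) * c := by rw [h1]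
        _ = _ := by group
    · have h1 : y * e * y⁻¹ = g * e * g⁻¹ := by rw [← w5, ← w7]
      calc e * (y⁻¹ * g) = y⁻¹ * (y * e * y⁻¹) * g := by group
        _ = y⁻¹ * (g * e * g⁻¹) * g := by rw [h1]
        _ = _ := by group
    · have h1 : e * g * e⁻¹ = b * g * b⁻¹ := by rw [← w8, ← w10]
      calc g * (b⁻¹ * e) = b⁻¹ * (b * g * b⁻¹) * e := by group
        _ = b⁻¹ * (e * g * e⁻¹) * e := by rw [h1]
        _ = _ := by group
    · -- the condition at circle 1, transported to the arc `B`
      have h1 : Wk t (t ^ (-(m : ℤ)) * (c⁻¹ * g⁻¹) ^ (-(k : ℤ))) := q0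
      have h2 := (h1.inv).conj g⁻¹
      have e1 : g⁻¹ * t⁻¹ * g⁻¹⁻¹ = b⁻¹ := by rw [tx]; group
      have e2 : g⁻¹ * (t ^ (-(m : ℤ)) * (c⁻¹ * g⁻¹) ^ (-(k : ℤ)))⁻¹ * g⁻¹⁻¹ =
          b⁻¹ ^ (-(m : ℤ)) * ((c * g)⁻¹) ^ (k : ℤ) := by
        have h3 : ∀ (z : X ≃o X) (n : ℤ), g⁻¹ * z ^ n * g⁻¹⁻¹ = (g⁻¹ * z * g⁻¹⁻¹) ^ n := by
          intro z n; rw [conj_zpow]
        have h4 : (t ^ (-(m : ℤ)) * (c⁻¹ * g⁻¹) ^ (-(k : ℤ)))⁻¹ =
            (c⁻¹ * g⁻¹) ^ (k : ℤ) * (t⁻¹) ^ (-(m : ℤ)) := by
          rw [mul_inv_rev, ← zpow_neg, neg_neg, inv_zpow]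
        have h5 : g⁻¹ * ((c⁻¹ * g⁻¹) ^ (k : ℤ) * (t⁻¹) ^ (-(m : ℤ))) * g⁻¹⁻¹ =
            (g⁻¹ * (c⁻¹ * g⁻¹) ^ (k : ℤ) * g⁻¹⁻¹) * (g⁻¹ * (t⁻¹) ^ (-(m : ℤ)) * g⁻¹⁻¹) := by
          group
        rw [h4, h5, h3, h3, e1]
        have h6 : g⁻¹ * (c⁻¹ * g⁻¹) * g⁻¹⁻¹ = (c * g)⁻¹ := by group
        rw [h6]
        exact ((ccb.inv_inv.zpow_zpow (-(m : ℤ)) (k : ℤ)).eq).symm
      rw [e1, e2] at h2
      exact h2
    · rw [← tx]; exact q1.1
    · rw [← tx]; exact q1.2
    · exact q2
    · exact q3.1
    · exact q3.2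
    · exact q4
  have key := fun v => Pool.Agent.Q138.LO.Five.trivial R v
  have one_of : ∀ z : X ≃o X, (∀ v, z v = v) → z = 1 := fun z hz => DFunLike.ext _ _ hz
  have f1 : b⁻¹ = 1 := one_of _ fun v => (key v).1
  have f2 : y = 1 := one_of _ fun v => (key v).2.1
  have f3 : c = 1 := one_of _ fun v => (key v).2.2.1
  have f4 : e = 1 := one_of _ fun v => (key v).2.2.2.1
  have f5 : g = 1 := one_of _ fun v => (key v).2.2.2.2
  have f1' : b = 1 := by simpa using f1
  have ft : t = 1 := by rw [w9, f1', f5]; group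
  have gens : ∀ a : Arc, β (FreeGroup.of a) = 1 := by
    rintro ⟨i, b'⟩
    fin_cases i <;> cases b'
    · exact ft
    · exact f1'
    · exact f3
    · show β n2 = 1
      rw [w1, f3]; group
    · exact f2
    · show β n3 = 1
      rw [w4, f2]; group
    · exact f4
    · show β n4 = 1
      rw [w5, f4]; group
    · exact f5
    · show β n5 = 1
      rw [w8, f5]; group
  intro x γ
  rw [gens γ]; rfl

end Pool.Agent.Results.MP_9ae2f3_gt.FiveChainLinkPieces
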