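import Pool.Agent.Q138.LO.TanC
import Pool.Agent.Y479.LS.Union

set_option autoImplicit false

/-!
# Toroidal manifolds from unions of two alternating tangles of opposite sign

Let `T`, `T'` be alternating tangle diagrams (`Pool.Agent.Y479.LS.Tangle`): every crossing has the
same sign with respect to the checkerboard colouring, the four regions at the boundary circle are
`west` (white), `north` (black), `east` (white), `south` (black). Glue `T` and the mirror image of
`T'` (the tangle of opposite sign) along the boundary circle, region by region.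

In the double branched cover of the resulting link replace the solid torus over each crossing by a piece
(`Pool.Agent.Q138.LO.Piece`): another solid torus, the twisted interval bundle over the Klein bottle,
or a Seifert fibred space over the disc, with conditions on the gluing map. `Grp T T' P` is the
fundamental group of the resulting closed manifold: generated by the regions, where `west = 1` and
`north = 1`, and by the elements of the pieces; at each crossing with corners `w₁, b₁, w₂, b₂` (in `T'`
before reflection) `b₂⁻¹ b₁` is the element `u` and `w₁⁻¹ w₂` the element `v` of the piece.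

A piece is flat if in every action on a linear order `v` moves no point further than `u`, and steep if
`u` moves no point further than `v`. A crossing is flat and steep.

The theorem: suppose that the poles `west`, `east` of `T` are joined in the white graph of `T` by two
disjoint paths of length two and by `n` paths of length one, all of them through flat pieces, that the
poles `north`, `south` of `T'` are joined in the black graph of `T'` by a walk of length `n + 1`
through steep pieces, and that there is at least one more crossing at one of the poles `west`, `east`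
of `T` or `north` of `T'`. Then the group is not left-orderable. The same holds with the colours
exchanged (and flat and steep exchanged), and with `T`, `T'` exchanged. The other pieces are only
required to be good: `u` and `v` move every point in the same direction.
-/

namespace Pool.Agent.Results.MP_9ae2f3_gt.OppositeTanglesWithPieces

open Pool.Agent.Y479.LS Pool.Agent.Q138.LO Pool.Agent.Q138.LO.Tan

section defs

variable (T T' : Tangle)

/-- `b₂⁻¹ b₁` at a crossing -/
def bb : T.C ⊕ T'.C → FreeGroup (Union.Gen T T')
  | .inl c => (Union.b T T' (T.b₂ c))⁻¹ * Union.b T T' (T.b₁ c)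
  | .inr c => (Union.b' T T' (T'.b₂ c))⁻¹ * Union.b' T T' (T'.b₁ c)

/-- `w₁⁻¹ w₂` at a crossing -/
def ww : T.C ⊕ T'.C → FreeGroup (Union.Gen T T')
  | .inl c => (Union.w T T' (T.w₁ c))⁻¹ * Union.w T T' (T.w₂ c)
  | .inr c => (Union.w' T T' (T'.w₁ c))⁻¹ * Union.w' T T' (T'.w₂ c)

/-- The regions at the boundary circle are common to both tangles; base regions. -/
def base : Set (FreeGroup (Union.Gen T T')) :=
  {r | r = Union.w T T' T.west * (Union.w' T T' T'.west)⁻¹ ∨
    r = Union.w T T' T.east * (Union.w' T T' T'.east)⁻¹ ∨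
    r = Union.b T T' T.north * (Union.b' T T' T'.north)⁻¹ ∨
    r = Union.b T T' T.south * (Union.b' T T' T'.south)⁻¹ ∨
    r = Union.w T T' T.west ∨ r = Union.b T T' T.north}

/-- The fundamental group of the closed manifold. -/
abbrev Grp (P : T.C ⊕ T'.C → Piece) : Type := GlueGroup (base T T') P (bb T T') (ww T T')

end defs

/-- Two disjoint paths of length two and `n` of length one between the poles of one colour on one
side, through crossings in `K`, a walk of length `n + 1` between the poles of the other colour on the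
other side, through crossings in `K'`, and one more crossing. -/
def Double {V C : Type} (K : C → Prop) (v₁ v₂ : C → V) (p q : V) (star : V → List (C × Bool))
    {V' C' : Type} (K' : C' → Prop) (v₁' v₂' : C' → V') (p' q' : V')
    (star' : V' → List (C' × Bool)) : Prop :=
  ∃ n, Nonempty (TwoPathsIn K v₁ v₂ p q star n) ∧ WalkIn K' v₁' v₂' (n + 1) p' q' ∧
    (n + 3 ≤ (star p).length ∨ n + 3 ≤ (star q).length ∨ 2 ≤ (star' p').length)

/-- The hypothesis on `T` and `T'`: either for the white regions of `T` and the black regions of `T'`,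
or for the black regions of `T'` and the white regions of `T`. -/
def Exceeds (T : Tangle) (P : T.C → Piece) (T' : Tangle) (P' : T'.C → Piece) : Prop :=
  Double (fun c => Flat (P c)) T.w₁ T.w₂ T.west T.east T.starW
    (fun c => Steep (P' c)) T'.b₁ T'.b₂ T'.north T'.south T'.starB ∨
  Double (fun c => Steep (P' c)) T'.b₁ T'.b₂ T'.north T'.south T'.starB
    (fun c => Flat (P c)) T.w₁ T.w₂ T.west T.east T.starW

theorem double_false {V E C : Type} {K : C → Prop} {v₁ v₂ : C → V} {e₁ e₂ : C → E} {p q : V}
    {a c : E} {star : V → List (C × Bool)} {V' E' C' : Type} {K' : C' → Prop} {v₁' v₂' : C' → V'}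
    {e₁' e₂' : C' → E'} {p' q' : V'} {a' c' : E'} {star' : V' → List (C' × Bool)}
    {X : Type*} [LinearOrder X]
    {f : V → Aut X} {h : E → Aut X} {f' : V' → Aut X} {h' : E' → Aut X}
    (S : Side v₁ v₂ e₁ e₂ p q a c star)
    (S' : Side v₁' v₂' e₁' e₂' p' q' a' c' star')
    (hr : Dir v₁ v₂ e₁ e₂ f h) (hr' : Dir v₁' v₂' e₁' e₂' f' h')
    (hK : DomIn K v₁ v₂ e₁ e₂ f h) (hK' : DomIn K' v₁' v₂' e₁' e₂' f' h')
    (hf : Bounds f p q) (hh : Bounds h a c) (hf' : Bounds f' p' q') (hh' : Bounds h' a' c')
    (g1 : f q = h' c') (g2 : h c = f' q')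
    (H : Double K v₁ v₂ p q star K' v₁' v₂' p' q' star') :
    False := by
  obtain ⟨n, ⟨T⟩, hw, hs⟩ := H
  obtain ⟨k1, k2⟩ := voltage_le S' hr' hf' hh' hK' hw
  rw [← g1, ← g2] at k1 k2
  obtain ⟨r1, r2, r3⟩ := two_paths S hr hf hh hK T k1
  rcases hs with hs | hs | hs
  · omega
  · omega
  · exact (k2 hs).ne r1

section actions

variable {T T' : Tangle} {P : T.C ⊕ T'.C → Piece}

theorem same_of {K : Type} [Group K] {u v : K} (h : Good u v) {X : Type} [LinearOrder X]
    (φ : K →* Aut X) : Same (φ u) (φ v) := fun x =>
  ⟨(h X φ x).1, (h X φ x).2.1⟩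

theorem dom_of {K : Type} [Group K] {u v : K} (h : Less u v) {X : Type} [LinearOrder X]
    (φ : K →* Aut X) : Dom (φ v) (φ u) := fun x => h X φ x

/-- the homomorphism from words in the regions -/
abbrev bh (P : T.C ⊕ T'.C → Piece) : FreeGroup (Union.Gen T T') →* Grp T T' P :=
  baseHom (base T T') P (bb T T') (ww T T')

theorem bh_eq {a b : FreeGroup (Union.Gen T T')} (h : a * b⁻¹ ∈ base T T') :
    bh P a = bh P b := by
  have := baseHom_rel (P := P) (U := bb T T') (V := ww T T') h
  rwa [map_mul, map_inv, mul_inv_eq_one] at this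

theorem west_one : bh P (Union.w T T' T.west) = 1 :=
  baseHom_rel (Or.inr (Or.inr (Or.inr (Or.inr (Or.inl rfl)))))

theorem north_one : bh P (Union.b T T' T.north) = 1 :=
  baseHom_rel (Or.inr (Or.inr (Or.inr (Or.inr (Or.inr rfl)))))

theorem west_eq : bh P (Union.w T T' T.west) = bh P (Union.w' T T' T'.west) :=
  bh_eq (Or.inl rfl)

theorem east_eq : bh P (Union.w T T' T.east) = bh P (Union.w' T T' T'.east) :=
  bh_eq (Or.inr (Or.inl rfl))

theorem north_eq : bh P (Union.b T T' T.north) = bh P (Union.b' T T' T'.north) :=
  bh_eq (Or.inr (Or.inr (Or.inl rfl)))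

theorem south_eq : bh P (Union.b T T' T.south) = bh P (Union.b' T T' T'.south) :=
  bh_eq (Or.inr (Or.inr (Or.inr (Or.inl rfl))))

variable {X : Type} [LinearOrder X] (φ : Grp T T' P →* Aut X)

theorem same (hP : ∀ c, Good (P c).u (P c).v) (c : T.C ⊕ T'.C) :
    Same (φ (bh P (bb T T' c))) (φ (bh P (ww T T' c))) := by
  have := same_of (hP c) (φ.comp (pieceHom (base T T') P (bb T T') (ww T T') c))
  rw [MonoidHom.comp_apply, MonoidHom.comp_apply, pieceHom_u, pieceHom_v] at this
  exact this

theorem flat {c : T.C ⊕ T'.C} (hc : Flat (P c)) :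
    Dom (φ (bh P (ww T T' c))) (φ (bh P (bb T T' c))) := by
  have := dom_of hc (φ.comp (pieceHom (base T T') P (bb T T') (ww T T') c))
  rw [MonoidHom.comp_apply, MonoidHom.comp_apply, pieceHom_u, pieceHom_v] at this
  exact this

theorem steep {c : T.C ⊕ T'.C} (hc : Steep (P c)) :
    Dom (φ (bh P (bb T T' c))) (φ (bh P (ww T T' c))) := by
  have := dom_of hc (φ.comp (pieceHom (base T T') P (bb T T') (ww T T') c))
  rw [MonoidHom.comp_apply, MonoidHom.comp_apply, pieceHom_u, pieceHom_v] at this
  exact this

theorem sameT (hP : ∀ c, Good (P c).u (P c).v) :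
    SameT T (fun v => φ (bh P (Union.w T T' v))) (fun v => φ (bh P (Union.b T T' v))) := by
  intro c
  have := same φ hP (.inl c)
  simp only [bb, ww, map_mul, map_inv] at this
  exact this

theorem sameT' (hP : ∀ c, Good (P c).u (P c).v) :
    SameT T' (fun v => φ (bh P (Union.w' T T' v))) (fun v => φ (bh P (Union.b' T T' v))) := by
  intro c
  have := same φ hP (.inr c)
  simp only [bb, ww, map_mul, map_inv] at this
  exact this

theorem fix_all (hP : ∀ c, Good (P c).u (P c).v) (x : X)
    (hx : φ (bh P (Union.w T T' T.east)) x = x) (γ : Grp T T' P) : φ γ x = x := by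
  have e1 : φ (bh P (Union.w T T' T.west)) x = x := by rw [west_one, map_one, Aut.one_apply]
  have e2 : φ (bh P (Union.b T T' T.north)) x = x := by rw [north_one, map_one, Aut.one_apply]
  obtain ⟨h1, h2⟩ := Tan.fix (sameT φ hP) (x := x) (e1.trans hx.symm)
  have e3 : φ (bh P (Union.w' T T' T'.west)) x = x := by rw [← west_eq]; exact e1
  have e4 : φ (bh P (Union.w' T T' T'.east)) x = x := by rw [← east_eq]; exact hx
  have e5 : φ (bh P (Union.b' T T' T'.north)) x = x := by rw [← north_eq]; exact e2
  obtain ⟨h3, h4⟩ := Tan.fix (sameT' φ hP) (x := x) (e3.trans e4.symm)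
  refine glue_fix hP φ (x := x) ?_ γ
  rintro ((v | v) | (v | v))
  · exact (h1 v).trans e1
  · exact (h2 v).trans e2
  · exact (h3 v).trans e3
  · exact (h4 v).trans e5

end actions

/-- The hypotheses on the tangles and the pieces. -/
def Allowed (T T' : Tangle) (P : T.C ⊕ T'.C → Piece) : Prop :=
  (∀ c, Good (P c).u (P c).v) ∧
    (Exceeds T (fun c => P (.inl c)) T' (fun c => P (.inr c)) ∨
      Exceeds T' (fun c => P (.inr c)) T (fun c => P (.inl c)))

theorem no_action {T T' : Tangle} {P : T.C ⊕ T'.C → Piece} (h : Allowed T T' P) {X : Type}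
    [LinearOrder X] [Nonempty X] (φ : Grp T T' P →* Aut X) :
    ¬ ∀ x, x < φ (bh P (Union.w T T' T.east)) x := by
  obtain ⟨hP, h⟩ := h
  intro hpos
  have r1 := sameT φ hP
  have r2 := sameT' φ hP
  have q1 : φ (bh P (Union.w T T' T.west)) = 1 := by rw [west_one, map_one]
  have q2 : φ (bh P (Union.b T T' T.north)) = 1 := by rw [north_one, map_one]
  have q3 : φ (bh P (Union.w' T T' T'.west)) = 1 := by rw [← west_eq]; exact q1
  have q4 : φ (bh P (Union.b' T T' T'.north)) = 1 := by rw [← north_eq]; exact q2
  have q5 : φ (bh P (Union.w T T' T.east)) = φ (bh P (Union.w' T T' T'.east)) := by rw [east_eq]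
  have q6 : φ (bh P (Union.b T T' T.south)) = φ (bh P (Union.b' T T' T'.south)) := by
    rw [south_eq]
  obtain ⟨B1, B2⟩ := Tan.bounds r1 q1 q2 hpos
  obtain ⟨B3, B4⟩ := Tan.bounds r2 q3 q4 (by rw [← q5]; exact hpos)
  have F1 : DomIn (fun c => Flat (P (.inl c))) T.w₁ T.w₂ T.b₁ T.b₂
      (fun v => φ (bh P (Union.w T T' v))) (fun v => φ (bh P (Union.b T T' v))) := by
    refine dom_white fun c hc => ?_
    have := flat φ (c := .inl c) hc
    simp only [bb, ww, map_mul, map_inv] at this
    exact this
  have F2 : DomIn (fun c => Steep (P (.inl c))) T.b₁ T.b₂ T.w₁ T.w₂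
      (fun v => φ (bh P (Union.b T T' v))) (fun v => φ (bh P (Union.w T T' v))) := by
    refine dom_black fun c hc => ?_
    have := steep φ (c := .inl c) hc
    simp only [bb, ww, map_mul, map_inv] at this
    exact this
  have F3 : DomIn (fun c => Flat (P (.inr c))) T'.w₁ T'.w₂ T'.b₁ T'.b₂
      (fun v => φ (bh P (Union.w' T T' v))) (fun v => φ (bh P (Union.b' T T' v))) := by
    refine dom_white fun c hc => ?_
    have := flat φ (c := .inr c) hc
    simp only [bb, ww, map_mul, map_inv] at this
    exact this
  have F4 : DomIn (fun c => Steep (P (.inr c))) T'.b₁ T'.b₂ T'.w₁ T'.w₂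
      (fun v => φ (bh P (Union.b' T T' v))) (fun v => φ (bh P (Union.w' T T' v))) := by
    refine dom_black fun c hc => ?_
    have := steep φ (c := .inr c) hc
    simp only [bb, ww, map_mul, map_inv] at this
    exact this
  rcases h with (h | h) | (h | h)
  · exact double_false T.white T'.black r1.white r2.black F1 F4 B1 B2 B4 B3 q5 q6 h
  · exact double_false T'.black T.white r2.black r1.white F4 F1 B4 B3 B1 B2 q6.symm q5.symm h
  · exact double_false T'.white T.black r2.white r1.black F3 F2 B3 B4 B2 B1 q5.symm q6.symm h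
  · exact double_false T.black T'.white r1.black r2.white F2 F3 B2 B1 B3 B4 q6 q5 h

/-- **Toroidal manifolds from unions of two alternating tangles of opposite sign.** -/
theorem result :
    (∀ (T T' : Tangle) (P : T.C ⊕ T'.C → Piece), Allowed T T' P →
      (∀ (H : Type) [Group H], LeftOrderable H → ∀ (f : Grp T T' P →* H) (γ : Grp T T' P),
        f γ = 1) ∧ ¬ LeftOrderable (Grp T T' P)) ∧
    (∀ F : Filling, F.Positive → Good F.piece.u F.piece.v ∧ (F.IsFlat → Flat F.piece) ∧
      (F.IsSteep → Steep F.piece)) := by
  refine ⟨fun T T' P hP => ?_, fun F hF => ⟨hF.good, hF.flat, hF.steep⟩⟩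
  have key : ∀ (H : Type) [Group H], LeftOrderable H → ∀ (f : Grp T T' P →* H)
      (γ : Grp T T' P), f γ = 1 := by
    intro H _ hH f γ
    exact hom_trivial (bh P (Union.w T T' T.east)) (fun X _ φ x hx γ => fix_all φ hP.1 x hx γ)
      (fun X _ _ φ => no_action hP φ) H hH f γ
  refine ⟨key, fun hG => ?_⟩
  obtain ⟨x, y, hxy⟩ := hG.1
  have h1 := key _ hG (MonoidHom.id _) x
  have h2 := key _ hG (MonoidHom.id _) y
  simp only [MonoidHom.id_apply] at h1 h2
  exact hxy (by rw [h1, h2])

end Pool.Agent.Results.MP_9ae2f3_gt.OppositeTanglesWithPieces
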