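import Pool.Agent.Q138.LO.Glue
import Pool.Agent.Y479.LS.Tangle

set_option autoImplicit false

/-!
# Toroidal manifolds built from alternating diagrams, Seifert pieces and Klein bottles

Let `L` be a link with a connected alternating diagram on the sphere. Remove from the double cover of
`S³` branched along `L` the preimages of small balls around the crossings. The result `M` is bounded
by tori, one for each crossing. A closed manifold `Y` is obtained by gluing to each of these tori one
of the following pieces:

* a solid torus, that is, the crossing is replaced by a rational tangle, which has to be positive;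
* the twisted interval bundle `N` over the Klein bottle, that is, the crossing is replaced by two
  parallel strands and a ring around both of them; the rational tangle whose strands are separated by
  a disc parallel to the ring has to be positive;
* a Seifert fibred space over the disc with any number `n ≥ 2` of exceptional fibres, for instance the
  exterior of a torus knot, with a condition on the gluing map (`InCone`).

The theorem: the fundamental group of `Y` has no nontrivial homomorphism to a left-orderable group.
(For solid tori only, `L` is replaced by another alternating link, and this is the theorem of Boyer,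
Gordon and Watson. If the diagram is reduced then the manifolds `Y` are L-spaces, by the gluing theorem
of Hanselman, Rasmussen and Watson and induction on the number of pieces which are not solid tori.)

The presentation. At each crossing the corners are `w₁, b₁, w₂, b₂` in counterclockwise order, where
the overpass separates `w₁, b₁` from `w₂, b₂`; `w₁, w₂` are white and `b₁, b₂` black regions. The
fundamental group of `M` is generated by the regions, with one white and one black region equal to
`1`; the basis `u = b₂⁻¹ b₁`, `v = w₁⁻¹ w₂` of the fundamental group of the boundary torus is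
identified with two elements `P.u`, `P.v` of the fundamental group of the piece. In the presentation
of the fundamental group of `M` the only other relators are the commutators of `u` and `v`, which
follow from the relations of the pieces, since `P.u` and `P.v` commute. The elements `P.u`, `P.v` are
a basis of the fundamental group of the boundary of the piece if `i l - j k = ± 1` (and they generate
the group of the solid torus if `p` and `q` are coprime); this is not needed in the proof.

The proof. A piece is called good if in each action on a linear order `P.u`, `P.v` move each point in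
the same direction and the points fixed by `P.u` are fixed by the piece. The three types of pieces are
good: for `N` since a point moved up by `x` is moved by each power of `y` less far than by `x`; for
Seifert pieces since at the points moved up by the regular fibre `h` the product of the `c s` moves up
more than each `c s`, and less than `h ^ (n - 1) * c s`. In an action of the fundamental group of `Y`
consider, at a point `x`, the white region with the largest image of `x`. The product of the elements
`u` around it is `1` and none of them moves `x` up, so all of them fix `x` and the white regions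
around it have the same image of `x`.

`Piece`, `Good`, `KleinGroup` are defined in `Pool.Agent.Q138.LO.Piece`; `InCone`, `SeifGroup` in
`Pool.Agent.Q138.LO.Seif`; `GlueGroup`, `Filling`, `Filling.piece`, `Filling.Positive` in
`Pool.Agent.Q138.LO.Glue`; `LeftOrderable`, `cAt`, `cOpp`, `Path`, `Adj` in `Pool.Agent.Y479.LS`.
-/

namespace Pool.Agent.Results.MP_9ae2f3_gt.ToroidalAlternating

open Relation Pool.Agent.Q138.LO Pool.Agent.Y479.LS

/-- A checkerboard coloured alternating diagram of a link on the sphere. -/
structure Diagram where
  /-- white regions -/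
  W : Type
  /-- black regions -/
  B : Type
  /-- crossings -/
  C : Type
  finW : Finite W
  finB : Finite B
  finC : Finite C
  /-- the corners of a crossing are `w₁, b₁, w₂, b₂`, in counterclockwise order; the overpass
  separates `w₁, b₁` from `w₂, b₂` -/
  w₁ : C → W
  b₁ : C → B
  w₂ : C → W
  b₂ : C → B
  /-- the corners of a white region as they are met along its boundary, in clockwise order -/
  star : W → List (C × Bool)
  mem : ∀ v k, k ∈ star v ↔ cAt w₁ w₂ k = v
  nodup : ∀ v, (star v).Nodup
  closed : ∀ v, ∃ e, Path b₁ b₂ e (star v) e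
  /-- both checkerboard graphs are connected -/
  connW : ∀ v v', ReflTransGen (Adj w₁ w₂) v v'
  connB : ∀ v v', ReflTransGen (Adj b₁ b₂) v v'
  /-- the base regions -/
  top : W
  bot : B

namespace Diagram

variable (D : Diagram)

/-- the generator of a white region -/
def w (v : D.W) : FreeGroup (D.W ⊕ D.B) := FreeGroup.of (Sum.inl v)

/-- the generator of a black region -/
def b (v : D.B) : FreeGroup (D.W ⊕ D.B) := FreeGroup.of (Sum.inr v)

/-- `b₂⁻¹ b₁` at the crossing `c` -/
def u (c : D.C) : FreeGroup (D.W ⊕ D.B) := (D.b (D.b₂ c))⁻¹ * D.b (D.b₁ c)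

/-- `w₁⁻¹ w₂` at the crossing `c` -/
def v (c : D.C) : FreeGroup (D.W ⊕ D.B) := (D.w (D.w₁ c))⁻¹ * D.w (D.w₂ c)

/-- The fundamental group of the closed manifold `Y`. -/
abbrev Grp (P : D.C → Piece) : Type := GlueGroup {D.w D.top, D.b D.bot} P D.u D.v

end Diagram

/-- Example: the trefoil diagram with three crossings. -/
def trefoil : Diagram where
  W := Bool
  B := Fin 3
  C := Fin 3
  finW := inferInstance
  finB := inferInstance
  finC := inferInstance
  w₁ _ := false
  b₁ c := c
  w₂ _ := true
  b₂ c := c + 1
  star v := if v then [(0, true), (1, true), (2, true)] else [(2, false), (1, false), (0, false)]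
  mem := by decide
  nodup := by decide
  closed v := by
    refine ⟨0, ?_⟩
    cases v
    · exact ⟨rfl, rfl, rfl, rfl⟩
    · exact ⟨rfl, rfl, rfl, rfl⟩
  connW := by
    have h1 : Adj (fun _ : Fin 3 => false) (fun _ => true) false true := ⟨(0, false), rfl, rfl⟩
    have h2 : Adj (fun _ : Fin 3 => false) (fun _ => true) true false := ⟨(0, true), rfl, rfl⟩
    intro v v'
    cases v <;> cases v'
    · exact ReflTransGen.refl
    · exact ReflTransGen.single h1
    · exact ReflTransGen.single h2
    · exact ReflTransGen.refl
  connB := by
    have h : ∀ c : Fin 3, Adj (fun c : Fin 3 => c) (fun c => c + 1) c (c + 1) :=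
      fun c => ⟨(c, false), rfl, rfl⟩
    have h' : ∀ (n : ℕ) (c : Fin 3),
        ReflTransGen (Adj (fun c : Fin 3 => c) (fun c => c + 1)) c ((fun c => c + 1)^[n] c) := by
      intro n c
      induction n with
      | zero => exact ReflTransGen.refl
      | succ n ih => rw [Function.iterate_succ_apply']; exact ih.tail (h _)
    intro v v'
    have h3 : (fun c : Fin 3 => c + 1)^[(v' - v).val] v = v' := by
      revert v v'; decide
    have h2 := h' (v' - v).val v
    rwa [h3] at h2
  top := false
  bot := 0

/-- telescoping along a path -/
theorem path_prod {H : Type*} [Group H] {E C : Type} {e₁ e₂ : C → E} (F : E → H) :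
    ∀ (l : List (C × Bool)) (a b : E), Path e₁ e₂ a l b →
      (l.map fun k => (F (cOpp e₁ e₂ k))⁻¹ * F (cAt e₁ e₂ k)).prod = (F a)⁻¹ * F b :=
  Pool.Agent.Y479.LS.path_prod F

theorem list_eq' {X : Type*} [LinearOrder X] (l : List (X ≃o X)) {x : X} (hl : ∀ g ∈ l, g x ≤ x)
    (hx : x ≤ l.prod x) : ∀ g ∈ l, g x = x :=
  Pool.Agent.Y479.LS.Aut.list_eq (X := X) l hl hx

/-- In an action of the base group for which all `u c`, `v c` move each point in the same direction,
all generators act trivially. -/
theorem base_trivial (D : Diagram) (X : Type) [LinearOrder X]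
    (β : FreeGroup (D.W ⊕ D.B) →* (X ≃o X)) (hw : β (D.w D.top) = 1) (hb : β (D.b D.bot) = 1)
    (hc : ∀ c x, (β (D.u c) x ≤ x ↔ β (D.v c) x ≤ x) ∧ (x ≤ β (D.u c) x ↔ x ≤ β (D.v c) x))
    (x : X) : (∀ n, β (D.w n) x = x) ∧ ∀ n, β (D.b n) x = x := by
  have := D.finW
  set F : D.W → (X ≃o X) := fun n => β (D.w n) with hF
  set E : D.B → (X ≃o X) := fun n => β (D.b n) with hE
  have hu : ∀ c, β (D.u c) = (E (D.b₂ c))⁻¹ * E (D.b₁ c) := fun c => by
    unfold Diagram.u; rw [map_mul, map_inv]
  have hv : ∀ c, β (D.v c) = (F (D.w₁ c))⁻¹ * F (D.w₂ c) := fun c => by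
    unfold Diagram.v; rw [map_mul, map_inv]
  have invle : ∀ (g h : X ≃o X), (g⁻¹ * h) x ≤ x ↔ h x ≤ g x := fun g h => by
    rw [mul_ap, ← g.le_iff_le, self_inv']
  have leinv : ∀ (g h : X ≃o X), x ≤ (g⁻¹ * h) x ↔ g x ≤ h x := fun g h => by
    rw [mul_ap, ← g.le_iff_le, self_inv']
  have hk1 : ∀ k : D.C × Bool, F (cOpp D.w₁ D.w₂ k) x ≤ F (cAt D.w₁ D.w₂ k) x ↔
      ((E (cOpp D.b₁ D.b₂ k))⁻¹ * E (cAt D.b₁ D.b₂ k)) x ≤ x := by
    rintro ⟨c, s⟩
    obtain ⟨h1, h2⟩ := hc c x
    rw [hu, hv] at h1 h2
    cases s
    · exact (invle _ _).symm.trans h1.symm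
    · exact (leinv _ _).symm.trans (h2.symm.trans ((leinv _ _).trans (invle _ _).symm))
  have hk2 : ∀ k : D.C × Bool, ((E (cOpp D.b₁ D.b₂ k))⁻¹ * E (cAt D.b₁ D.b₂ k)) x = x →
      F (cOpp D.w₁ D.w₂ k) x = F (cAt D.w₁ D.w₂ k) x := by
    rintro ⟨c, s⟩ h
    obtain ⟨h1, h2⟩ := hc c x
    rw [hu, hv, invle, invle] at h1
    rw [hu, hv, leinv, leinv] at h2
    have h3 : E (cAt D.b₁ D.b₂ (c, s)) x = E (cOpp D.b₁ D.b₂ (c, s)) x :=
      le_antisymm ((invle _ _).mp h.le) ((leinv _ _).mp h.ge)
    cases s
    · exact le_antisymm (h1.mp h3.le) (h2.mp h3.ge)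
    · exact le_antisymm (h2.mp h3.le) (h1.mp h3.ge)
  -- the maximum principle
  obtain ⟨M, hM⟩ : ∃ M, ∀ n, F n x ≤ F M x := by
    have : Nonempty D.W := ⟨D.top⟩
    exact Finite.exists_max fun n => F n x
  have loc : ∀ n, F n x = F M x → ∀ k ∈ D.star n, F (cOpp D.w₁ D.w₂ k) x = F M x := by
    intro n hn k hk
    obtain ⟨e, he⟩ := D.closed n
    have h1 := path_prod E _ _ _ he
    rw [inv_mul_cancel] at h1
    have h3 := list_eq' (x := x)
      ((D.star n).map fun k => ((E (cOpp D.b₁ D.b₂ k))⁻¹ * E (cAt D.b₁ D.b₂ k))) ?_ ?_
    · rw [hk2 k (h3 _ (List.mem_map_of_mem hk)), (D.mem n k).mp hk, hn]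
    · intro g hg
      obtain ⟨k', hk', rfl⟩ := List.mem_map.mp hg
      refine (hk1 k').mp ?_
      rw [(D.mem n k').mp hk', hn]
      exact hM _
    · rw [h1]; exact le_rfl
  have all : ∀ n, F n x = F M x := by
    intro n
    induction D.connW M n with
    | refl => rfl
    | @tail a c _ hac ih =>
      obtain ⟨k, h1, h2⟩ := hac
      rw [← h2]
      exact loc a ih k ((D.mem a k).mpr h1)
  have hFx : ∀ n, F n x = x := by
    intro n
    rw [all n, ← all D.top]
    show β (D.w D.top) x = x
    rw [hw]; rfl
  have hEc : ∀ c, E (D.b₁ c) x = E (D.b₂ c) x := by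
    intro c
    obtain ⟨h1, h2⟩ := hc c x
    rw [hu, hv, invle, invle] at h1
    rw [hu, hv, leinv, leinv] at h2
    exact le_antisymm (h1.mpr (by rw [hFx, hFx])) (h2.mpr (by rw [hFx, hFx]))
  have allE : ∀ n, E n x = E D.bot x := by
    intro n
    induction D.connB D.bot n with
    | refl => rfl
    | @tail a c _ hac ih =>
      obtain ⟨⟨k, s⟩, h1, h2⟩ := hac
      rw [← ih, ← h1, ← h2]
      cases s
      · exact (hEc k).symm
      · exact hEc k
  refine ⟨hFx, fun n => ?_⟩
  show E n x = x
  rw [allE n]
  show β (D.b D.bot) x = x
  rw [hb]; rfl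

/-- **Alternating diagrams with pieces.** If a positive solid torus, a positive twisted interval bundle
over the Klein bottle, a positive Seifert fibred space over the disc or any other good piece is glued
in at each crossing of an alternating diagram then the fundamental group of the resulting closed
manifold has no nontrivial homomorphism to a left-orderable group; in particular it is not
left-orderable. -/
theorem result (D : Diagram) (P : D.C → Piece)
    (hP : ∀ c, (∃ F : Filling, F.Positive ∧ P c = F.piece) ∨ Good (P c).u (P c).v) :
    (∀ (H : Type) [Group H], LeftOrderable H → ∀ (f : D.Grp P →* H) g, f g = 1) ∧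
      ¬ LeftOrderable (D.Grp P) := by
  have hP' : ∀ c, Good (P c).u (P c).v := by
    intro c
    rcases hP c with ⟨F, hF, h⟩ | h
    · rw [h]; exact hF.good
    · exact h
  refine glue_trivial (fun _ X _ f g => ∀ x : X, (f x ≤ x ↔ g x ≤ x) ∧ (x ≤ f x ↔ x ≤ g x))
    (fun c X _ φ x => ⟨(hP' c X φ x).1, (hP' c X φ x).2.1⟩)
    (fun c X _ φ x h _ => (hP' c X φ x).2.2 h) ?_
  intro X _ β h1 h2 x γ
  obtain ⟨h3, h4⟩ := base_trivial D X β (h1 _ (by simp)) (h1 _ (by simp)) h2 x
  cases γ with
  | inl n => exact h3 n
  | inr n => exact h4 n

end Pool.Agent.Results.MP_9ae2f3_gt.ToroidalAlternating
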