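import Pool.Agent.Q138.LO.Chain

set_option autoImplicit false

/-!
# Manifolds glued from exteriors of chain links and Seifert fibred pieces

## The links

Let `n ≥ 3`.  Put `n` round circles, indexed by `ZMod n`, in the plane on a ring, in clockwise
cyclic order around the origin, each oriented clockwise, such that circle `i` meets circle
`i + 1` in two points (the outer crossing, far from the origin, and the inner crossing) and no
others.  The two crossings of the circles `i`, `i + 1` form a clasp; they have the same sign: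

* `e i = true`: both crossings are positive (linking number `+1`); at the outer crossing `i`
  passes over `i + 1` and at the inner crossing `i + 1` passes over `i`;
* `e i = false`: both crossings are negative (linking number `-1`); at the outer crossing `i + 1`
  passes over `i` and at the inner crossing `i` passes over `i + 1`.

With `k` positive clasps this is, up to mirror image, the `n`-chain link `C(n, -k)` of Neumann and
Reid; its exterior is hyperbolic for `0 ≤ k ≤ n` except when `k ≤ 2` and `n - k ≤ 2`.
Each circle passes under its neighbours at exactly two crossings; `o i` and `m i` are the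
meridians of the outer and of the inner arc of circle `i`.

## The manifolds

A closed manifold is built from the exterior of a chain link by gluing to each boundary torus one
of the following manifolds with torus boundary:

* a solid torus (`Filling.solid p q`, slope `p / q`);
* the twisted interval bundle over the Klein bottle (`Filling.klein s i j k l`), with fundamental
  group `⟨x, y | x y x⁻¹ = y⁻¹⟩` and peripheral subgroup generated by `y` and `x ^ 2`: the meridian
  and the longitude of the component become `y ^ i * x ^ (2 * j)` and `y ^ k * x ^ (2 * l)`;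
* a Seifert fibred space over the disc with `r ≥ 2` exceptional fibres
  (`Filling.seifert s r α β i j k l`; this includes the exteriors of all torus knots), with
  fundamental group generated by the central element `h` and by `c 0, ..., c (r - 1)` with the
  relations `c t ^ α t = h ^ β t`, and peripheral subgroup generated by `c = c 0 ⋯ c (r - 1)` and
  `h`: the meridian and the longitude become `c ^ i * h ^ j` and `c ^ k * h ^ l`;
* the exterior of another chain link, all of whose components but component `0` are filled in the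
  same way (`Filling.piece a b c d n e att`): the meridian and the longitude become
  `μ ^ a * λ ^ b` and `μ ^ c * λ ^ d`, where `μ`, `λ` are the meridian and the longitude of
  component `0` of the other link.
-/

namespace Pool.Agent.Results.MP_9ae2f3_gt.TreesWithSeifertLeaves

/-- A nontrivial group is left-orderable if it carries a strict total order that is invariant
under left multiplication. -/
def LeftOrderable (G : Type*) [Group G] : Prop :=
  Nontrivial G ∧ ∃ lt : G → G → Prop, IsStrictTotalOrder G lt ∧
    ∀ a b c : G, lt a b ↔ lt (c * a) (c * b)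

/-- What is glued to a boundary torus of the exterior of a chain link. -/
inductive Filling : Type
  | solid (p q : ℤ) : Filling
  | klein (s : Bool) (i j k l : ℤ) : Filling
  | seifert (s : Bool) (r : ℕ) (α β : Fin r → ℕ) (i j k l : ℤ) : Filling
  | piece (a b c d : ℤ) (n : ℕ) (e : ZMod n → Bool) (att : ZMod n → Filling) : Filling

/-- A group presentation with two marked words (the meridian and the longitude of a boundary
torus). -/
structure Pres where
  /-- the generators -/
  gen : Type
  /-- the relators -/
  rel : Set (FreeGroup gen)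
  /-- the meridian -/
  mer : FreeGroup gen
  /-- the longitude -/
  lon : FreeGroup gen

section link
variable {n : ℕ} {S : Set (ZMod n)} {P : ZMod n → Pres}

/-- The generators: two for each component of the link and those of `P i` for `i ∈ S`. -/
abbrev LGen (n : ℕ) (S : Set (ZMod n)) (P : ZMod n → Pres) : Type :=
  (ZMod n × Bool) ⊕ (Σ i : S, (P i).gen)

/-- Meridian of the outer arc of circle `i`. -/
def o (i : ZMod n) : FreeGroup (LGen n S P) := FreeGroup.of (Sum.inl (i, false))

/-- Meridian of the inner arc of circle `i`. -/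
def m (i : ZMod n) : FreeGroup (LGen n S P) := FreeGroup.of (Sum.inl (i, true))

/-- The Wirtinger relator of a crossing of sign `ε` with over arc `c`, incoming under arc `a`
and outgoing under arc `b`. -/
def crossing (ε : ℤ) (c a b : FreeGroup (LGen n S P)) : FreeGroup (LGen n S P) :=
  c ^ (-ε) * a * c ^ ε * b⁻¹

/-- The relator of the outer crossing of the circles `i`, `i + 1`. -/
def outer (e : ZMod n → Bool) (i : ZMod n) : FreeGroup (LGen n S P) :=
  if e i then crossing 1 (o i) (m (i + 1)) (o (i + 1)) else crossing (-1) (o (i + 1)) (o i) (m i)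

/-- The relator of the inner crossing of the circles `i`, `i + 1`. -/
def inner (e : ZMod n → Bool) (i : ZMod n) : FreeGroup (LGen n S P) :=
  if e i then crossing 1 (m (i + 1)) (o i) (m i) else crossing (-1) (m i) (m (i + 1)) (o (i + 1))

/-- The (preferred, 0-framed) longitude of circle `i` that starts on the outer arc: the product
of `c ^ ε` over the two crossings where the circle passes under (first the one with circle
`i + 1`, then the one with circle `i - 1`). -/
def longitude (e : ZMod n → Bool) (i : ZMod n) : FreeGroup (LGen n S P) :=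
  (if e i then m (i + 1) else (o (i + 1))⁻¹) * (if e (i - 1) then o (i - 1) else (m (i - 1))⁻¹)

/-- The words in the generators of `P i`. -/
def incl (i : S) : FreeGroup (P i).gen →* FreeGroup (LGen n S P) :=
  FreeGroup.map fun g => Sum.inr ⟨i, g⟩

end link

/-- The relators of the gluing along a torus with meridian `x` and longitude `l`; `μ` and `l'`
are the meridian and the longitude of the other side. -/
def glue {F : Type} [Group F] (x l μ l' : F) : Filling → Set F
  | .solid p q => {x ^ p * l ^ q}
  | .klein _ _ _ _ _ => {x * μ⁻¹, l * l'⁻¹}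
  | .seifert _ _ _ _ _ _ _ _ => {x * μ⁻¹, l * l'⁻¹}
  | .piece a b c d _ _ _ => {x * (μ ^ a * l' ^ b)⁻¹, l * (μ ^ c * l' ^ d)⁻¹}

/-- The presentation of the fundamental group of the exterior of the chain link `e` with manifolds
with presentations `P i` glued to the components `i ∈ S` as described by `att i`. The marked
words are the meridian and the longitude of component `0`. -/
def build (n : ℕ) (e : ZMod n → Bool) (S : Set (ZMod n)) (P : ZMod n → Pres)
    (att : ZMod n → Filling) : Pres where
  gen := LGen n S P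
  rel := Set.range (outer e) ∪ Set.range (inner e) ∪
    ⋃ i : S, glue (o i) (longitude e i) (incl i (P i).mer) (incl i (P i).lon) (att i) ∪
      incl i '' (P i).rel
  mer := o 0
  lon := longitude e 0

/-- The presentation `⟨x, y | x y x⁻¹ y⟩` (`x`, `y` are the generators `0`, `1`) with the words
`y ^ i * x ^ (2 * j)` and `y ^ k * x ^ (2 * l)`. -/
def kleinPres (i j k l : ℤ) : Pres where
  gen := Fin 2
  rel := {FreeGroup.of 0 * FreeGroup.of 1 * (FreeGroup.of 0)⁻¹ * FreeGroup.of 1}
  mer := FreeGroup.of 1 ^ i * FreeGroup.of 0 ^ (2 * j)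
  lon := FreeGroup.of 1 ^ k * FreeGroup.of 0 ^ (2 * l)

/-- The product `c 0 ⋯ c (r - 1)` of the generators `some t`. -/
def cprod (r : ℕ) : FreeGroup (Option (Fin r)) := (List.ofFn fun t => FreeGroup.of (some t)).prod

/-- The presentation with the generators `h` (`none`) and `c t` (`some t`), where `h` is central
and `c t ^ α t = h ^ β t`, with the words `c ^ i * h ^ j` and `c ^ k * h ^ l`. -/
def seifPres (r : ℕ) (α β : Fin r → ℕ) (i j k l : ℤ) : Pres where
  gen := Option (Fin r)
  rel := {w | (∃ t, w = FreeGroup.of (some t) * FreeGroup.of none * (FreeGroup.of (some t))⁻¹ *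
      (FreeGroup.of none)⁻¹) ∨
    (∃ t, w = FreeGroup.of (some t) ^ α t * (FreeGroup.of none ^ β t)⁻¹)}
  mer := cprod r ^ i * FreeGroup.of none ^ j
  lon := cprod r ^ k * FreeGroup.of none ^ l

/-- The presentation for a filling: nothing for a solid torus; for a piece, the exterior of the
chain link with the fillings `att i` of all components `i ≠ 0`. -/
def Filling.pres : Filling → Pres
  | .solid _ _ => ⟨Empty, ∅, 1, 1⟩
  | .klein _ i j k l => kleinPres i j k l
  | .seifert _ r α β i j k l => seifPres r α β i j k l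
  | .piece _ _ _ _ n e att => build n e {i | i ≠ 0} (fun i => (att i).pres) att

/-- The fundamental group of the closed manifold obtained from the exterior of the chain link
`e` with the fillings `att i` of all components. -/
abbrev ClosedGroup (n : ℕ) (e : ZMod n → Bool) (att : ZMod n → Filling) : Type :=
  PresentedGroup (build n e Set.univ (fun i => (att i).pres) att).rel

/-- The sign of a filling: `true` for positive slopes, `false` for negative slopes; for a piece,
the slope is the image `-c / a` of the slope `0` of the piece. For a twisted interval bundle over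
the Klein bottle or a Seifert fibred space the sign `s` is part of the data and occurs in the
condition `Filling.Good`. -/
def Filling.pos : Filling → Bool
  | .solid p _ => decide (0 < p)
  | .klein s _ _ _ _ => s
  | .seifert s _ _ _ _ _ _ _ => s
  | .piece a _ c _ _ _ _ => decide (a * c < 0)

/-- The number of negative fillings minus the number of positive clasps. -/
noncomputable def D (n : ℕ) (e : ZMod n → Bool) (S : Set (ZMod n)) (att : ZMod n → Filling) : ℤ :=
  ({i | i ∈ S ∧ (att i).pos = false}.ncard : ℤ) - ({i | e i = true}.ncard : ℤ)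

/-- The gluing map given by `a, b, c, d` is a homeomorphism of the torus that carries the
interval `[-2, 2]` of slopes of the piece into `(2, ∞)` or into `(-∞, -2)`: the slope `s` goes to
`(d s - c) / (a - b s)`. -/
def Gluing (a b c d : ℤ) : Prop :=
  |a * d - b * c| = 1 ∧
    ((∀ s : ℚ, |s| ≤ 2 → 2 < (d * s - c) / (a - b * s)) ∨
      ∀ s : ℚ, |s| ≤ 2 → (d * s - c) / (a - b * s) < -2)

/-- The slope of `c ^ i * h ^ j` lies in the cone of the slopes that are outside of the open
interval from `max (β t / α t)` to `r - 1 + min (β t / α t)`, and on the side of `h`: either `i > 0`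
and `- j / i ≤ β t / α t` for some `t`, or `i = 0` and `j > 0`, or `i < 0` and
`j / (- i) ≥ r - 1 + β t / α t` for some `t`. -/
def Cone {r : ℕ} (α β : Fin r → ℕ) (i j : ℤ) : Prop :=
  (0 < i ∧ ∃ t, -j * α t ≤ i * β t) ∨ (i = 0 ∧ 0 < j) ∨
    (i < 0 ∧ ∃ t, -i * (((r : ℤ) - 1) * α t + β t) ≤ j * α t)

/-- The conditions on a filling. For the twisted interval bundle over the Klein bottle they say that
the gluing map is a homeomorphism, and that the slope `y`, i.e. `- l / j` in terms of the meridian
and the longitude, is `> 2` (for the sign `true`) or `< -2` (for the sign `false`). For a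
Seifert fibred space the elements `x` and `(x ^ 2 * l)⁻¹` (sign `true`) or `x` and `x ^ (-2) * l`
(sign `false`) have to belong to the cone, where `x`, `l` are the meridian and the longitude. -/
def Filling.Good : Filling → Prop
  | .solid p q => 1 ≤ q ∧ 2 * q ≤ |p|
  | .klein s i j k l => |i * l - j * k| = 1 ∧ 1 ≤ j ∧
      (if s then l < -2 * j else 2 * j < l)
  | .seifert s r α β i j k l => 2 ≤ r ∧ (∀ t, 0 < β t) ∧ (∀ t, β t < α t) ∧
      (∀ t, (α t).Coprime (β t)) ∧ |i * l - j * k| = 1 ∧ Cone α β i j ∧
      (if s then Cone α β (-k - 2 * i) (-l - 2 * j) else Cone α β (k - 2 * i) (l - 2 * j))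
  | .piece a b c d n e att => 3 ≤ n ∧ Gluing a b c d ∧ (∀ i, i ≠ 0 → (att i).Good) ∧
      (D n e {i | i ≠ 0} att = 0 ∨ D n e {i | i ≠ 0} att = -1)

/-- A filling that is not a solid torus. -/
def Filling.IsPiece : Filling → Prop
  | .solid _ _ => False
  | _ => True

section proof

open Pool.Agent.TH744.Tree
open Pool.Agent.Q138.LO (Caps)

theorem Gluing.mat {a b c d : ℤ} (h : Gluing a b c d) :
    Mat (decide (a * c < 0)) a b c d ∨ Mat (decide (a * c < 0)) (-a) (-b) (-c) (-d) := by
  obtain ⟨_, h⟩ := h
  -- the denominator does not vanish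
  have hd : ∀ s : ℚ, |s| ≤ 2 → (a : ℚ) - b * s ≠ 0 := by
    intro s hs h0
    rcases h with h | h
    · have := h s hs; rw [h0, div_zero] at this; linarith
    · have := h s hs; rw [h0, div_zero] at this; linarith
  have ha : a ≠ 0 := by
    intro h0
    apply hd 0 (by norm_num)
    rw [h0]; simp
  have hb : 2 * |b| < |a| := by
    by_contra hcon
    rw [not_lt] at hcon
    have hb0 : b ≠ 0 := by
      intro h0
      rw [h0, abs_zero, mul_zero] at hcon
      exact ha (abs_nonpos_iff.mp hcon)
    have hbq : (b : ℚ) ≠ 0 := by exact_mod_cast hb0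
    apply hd (a / b)
    · rw [abs_div, div_le_iff₀ (abs_pos.mpr hbq)]
      exact_mod_cast hcon
    · field_simp; ring
  -- it suffices to treat positive `a`
  have key : ∀ a b c d : ℤ, 0 < a → 2 * |b| < a →
      ((∀ s : ℚ, |s| ≤ 2 → 2 < (d * s - c) / (a - b * s)) ∨
        ∀ s : ℚ, |s| ≤ 2 → (d * s - c) / (a - b * s) < -2) → Mat (decide (a * c < 0)) a b c d := by
    intro a b c d ha hb h
    have hb1 := abs_lt.mp (show |2 * b| < a by rw [abs_mul, abs_two]; exact hb)
    have h1 : (0 : ℚ) < a - b * 2 := by
      have : 0 < a - b * 2 := by linarith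
      exact_mod_cast this
    have h2 : (0 : ℚ) < a - b * (-2) := by
      have : 0 < a - b * (-2) := by linarith
      exact_mod_cast this
    refine ⟨hb, ?_⟩
    rcases h with h | h
    · have k1 := h 2 (by norm_num)
      have k2 := h (-2) (by norm_num)
      rw [lt_div_iff₀ h1] at k1
      rw [lt_div_iff₀ h2] at k2
      have k1' : 2 * (a - b * 2) < d * 2 - c := by exact_mod_cast k1
      have k2' : 2 * (a - b * (-2)) < d * (-2) - c := by exact_mod_cast k2
      have hc : c < 0 := by linarith
      rw [decide_eq_true (mul_neg_of_pos_of_neg ha hc), if_pos rfl]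
      have : |2 * (d + 2 * b)| < -c - 2 * a := abs_lt.mpr ⟨by linarith, by linarith⟩
      rwa [abs_mul, abs_two] at this
    · have k1 := h 2 (by norm_num)
      have k2 := h (-2) (by norm_num)
      rw [div_lt_iff₀ h1] at k1
      rw [div_lt_iff₀ h2] at k2
      have k1' : d * 2 - c < -2 * (a - b * 2) := by exact_mod_cast k1
      have k2' : d * (-2) - c < -2 * (a - b * (-2)) := by exact_mod_cast k2
      have hc : 0 < c := by linarith
      rw [decide_eq_false (not_lt.mpr (mul_pos ha hc).le), if_neg (by simp)]
      have : |2 * (d - 2 * b)| < c - 2 * a := abs_lt.mpr ⟨by linarith, by linarith⟩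
      rwa [abs_mul, abs_two] at this
  rcases lt_or_gt_of_ne ha with h0 | h0
  · right
    rw [abs_of_neg h0] at hb
    have h1 := key (-a) (-b) (-c) (-d) (by linarith) (by rw [abs_neg]; exact hb) (by
      have e : ∀ s : ℚ, (((-d : ℤ) : ℚ) * s - ((-c : ℤ) : ℚ)) / (((-a : ℤ) : ℚ) - ((-b : ℤ) : ℚ) * s)
          = (d * s - c) / (a - b * s) := by
        intro s
        rw [← neg_div_neg_eq ((d : ℚ) * s - c)]
        push_cast
        congr 1 <;> ring
      rcases h with h | h
      · left; intro s hs; rw [e]; exact h s hs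
      · right; intro s hs; rw [e]; exact h s hs)
    rwa [neg_mul_neg] at h1
  · left
    rw [abs_of_pos h0] at hb
    exact key a b c d h0 hb h

/-- What is known about a filling. -/
def Known (K : Filling) (P : Pres) : Prop :=
  match K with
  | .solid p q => (1 ≤ q ∧ 2 * q ≤ |p|) ∧ IsEmpty P.gen
  | .klein s _ _ _ _ => Caps s (PresentedGroup.mk P.rel P.mer) (PresentedGroup.mk P.rel P.lon)
  | .seifert s _ _ _ _ _ _ _ =>
      Caps s (PresentedGroup.mk P.rel P.mer) (PresentedGroup.mk P.rel P.lon)
  | .piece a b c d _ _ _ =>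
      (Mat (decide (a * c < 0)) a b c d ∨ Mat (decide (a * c < 0)) (-a) (-b) (-c) (-d)) ∧
      Tame.{0} (PresentedGroup P.rel) (PresentedGroup.mk P.rel P.mer)
        (PresentedGroup.mk P.rel P.lon)

variable {n : ℕ} {e : ZMod n → Bool} {S : Set (ZMod n)} {P : ZMod n → Pres}
  {att : ZMod n → Filling}

/-- The class of a word. -/
abbrev cl (n : ℕ) (e : ZMod n → Bool) (S : Set (ZMod n)) (P : ZMod n → Pres)
    (att : ZMod n → Filling) :
    FreeGroup (LGen n S P) →* PresentedGroup (build n e S P att).rel :=
  PresentedGroup.mk (build n e S P att).rel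

theorem cl_one {w : FreeGroup (LGen n S P)} (hw : w ∈ (build n e S P att).rel) :
    cl n e S P att w = 1 := PresentedGroup.one_of_mem hw

theorem cl_outer (i : ZMod n) : cl n e S P att (outer e i) = 1 :=
  cl_one (Or.inl (Or.inl ⟨i, rfl⟩))

theorem cl_inner (i : ZMod n) : cl n e S P att (inner e i) = 1 :=
  cl_one (Or.inl (Or.inr ⟨i, rfl⟩))

theorem cl_glue (i : S) {w : FreeGroup (LGen n S P)}
    (hw : w ∈ glue (o i) (longitude e i) (incl i (P i).mer) (incl i (P i).lon) (att i)) :
    cl n e S P att w = 1 :=
  cl_one (Or.inr (Set.mem_iUnion.mpr ⟨i, Or.inl hw⟩))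

theorem cl_rel (i : S) {w : FreeGroup (P i).gen} (hw : w ∈ (P i).rel) :
    cl n e S P att (incl i w) = 1 :=
  cl_one (Or.inr (Set.mem_iUnion.mpr ⟨i, Or.inr ⟨w, hw, rfl⟩⟩))

/-- The homomorphism from the group of a piece. -/
def iota (e : ZMod n → Bool) (att : ZMod n → Filling) (i : S) :
    PresentedGroup (P i).rel →* PresentedGroup (build n e S P att).rel :=
  PresentedGroup.toGroup (f := fun g => cl n e S P att (FreeGroup.of (Sum.inr ⟨i, g⟩))) (by
    intro r hr
    have h1 : FreeGroup.lift (fun g => cl n e S P att (FreeGroup.of (Sum.inr ⟨i, g⟩))) =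
        (cl n e S P att).comp (incl i) := by
      apply FreeGroup.ext_hom
      intro g
      rw [FreeGroup.lift_apply_of]
      rfl
    rw [h1]
    exact cl_rel i hr)

theorem iota_mk (i : S) (w : FreeGroup (P i).gen) :
    iota e att i (PresentedGroup.mk (P i).rel w) = cl n e S P att (incl i w) := by
  have h1 : (iota e att i).comp (PresentedGroup.mk (P i).rel) =
      (cl n e S P att).comp (incl i) := by
    apply FreeGroup.ext_hom
    intro g
    show iota e att i (PresentedGroup.of g) = _
    rw [iota, PresentedGroup.toGroup.of]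
    rfl
  exact DFunLike.congr_fun h1 w

theorem link (n : ℕ) (e : ZMod n → Bool) (S : Set (ZMod n)) (P : ZMod n → Pres)
    (att : ZMod n → Filling) :
    Link n (fun i : ℕ => cl n e S P att (o (i : ZMod n)))
      (fun i : ℕ => cl n e S P att (m (i : ZMod n))) (fun i : ℕ => e (i : ZMod n)) := by
  refine ⟨fun i => ?_, fun i => ?_, fun i => ?_, fun i => ?_⟩
  · have := cl_outer (e := e) (S := S) (P := P) (att := att) (i : ZMod n)
    unfold outer at this
    show if e (i : ZMod n) then _ else _
    split_ifs at this ⊢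
    · simpa only [crossing, map_mul, map_inv, map_zpow, zpow_neg, zpow_one, Nat.cast_add,
        Nat.cast_one] using this
    · simpa only [crossing, map_mul, map_inv, map_zpow, zpow_neg, zpow_one, neg_neg,
        Nat.cast_add, Nat.cast_one] using this
  · have := cl_inner (e := e) (S := S) (P := P) (att := att) (i : ZMod n)
    unfold inner at this
    show if e (i : ZMod n) then _ else _
    split_ifs at this ⊢
    · simpa only [crossing, map_mul, map_inv, map_zpow, zpow_neg, zpow_one, Nat.cast_add,
        Nat.cast_one] using this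
    · simpa only [crossing, map_mul, map_inv, map_zpow, zpow_neg, zpow_one, neg_neg,
        Nat.cast_add, Nat.cast_one] using this
  · show cl n e S P att (o ((i + n : ℕ) : ZMod n)) = _
    rw [Nat.cast_add, ZMod.natCast_self, add_zero]
  · show e ((i + n : ℕ) : ZMod n) = _
    rw [Nat.cast_add, ZMod.natCast_self, add_zero]

theorem lon_eq (i : ℕ) :
    lon (fun i : ℕ => cl n e S P att (o (i : ZMod n)))
      (fun i : ℕ => cl n e S P att (m (i : ZMod n))) (fun i : ℕ => e (i : ZMod n)) i =
      cl n e S P att (longitude e ((i + 1 : ℕ) : ZMod n)) := by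
  have e1 : ((i + 1 : ℕ) : ZMod n) - 1 = (i : ZMod n) := by push_cast; ring
  have e2 : ((i + 1 : ℕ) : ZMod n) + 1 = ((i + 2 : ℕ) : ZMod n) := by push_cast; ring
  unfold lon longitude
  rw [e1, e2, map_mul, apply_ite (cl n e S P att), apply_ite (cl n e S P att), map_inv, map_inv]

/-- The meridian and the longitude of a component commute. -/
theorem comm [NeZero n] (i : ZMod n) :
    Commute (cl n e S P att (o i)) (cl n e S P att (longitude e i)) := by
  have h := (link n e S P att).comm (i.val + (n - 1))
  rw [lon_eq] at h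
  have e1 : ((i.val + (n - 1) + 1 : ℕ) : ZMod n) = i := by
    have hn : 1 ≤ n := NeZero.one_le
    have e2 : i.val + (n - 1) + 1 = i.val + n := by omega
    rw [e2]; push_cast; rw [ZMod.natCast_zmod_val, ZMod.natCast_self, add_zero]
  change Commute (cl n e S P att (o ((i.val + (n - 1) + 1 : ℕ) : ZMod n))) _ at h
  rw [e1] at h
  exact h

variable {X : Type} [CompleteLinearOrder X]

theorem neg_word {G : Type} [Group G] {μ l : G} (h : Commute μ l) (a b : ℤ) :
    μ ^ (-a) * l ^ (-b) = (μ ^ a * l ^ b)⁻¹ := by
  rw [mul_inv_rev, ← zpow_neg, ← zpow_neg, (h.zpow_zpow _ _).eq]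

theorem cp_neg {x l : X ≃o X} {σ : Bool} (h : Cp X σ x⁻¹ l⁻¹) : Cp X σ x l := by
  have h1 := Dm.inv mono_aut h
  unfold Cp
  cases σ
  · exact h1
  · simpa using h1

theorem cps_neg {x l : X ≃o X} {σ : Bool} (h : CpS X σ x⁻¹ l⁻¹) : CpS X σ x l := by
  have h1 := DmS.inv mono_aut h
  unfold CpS
  cases σ
  · exact h1
  · simpa using h1

/-- A solid torus or a piece caps a component. -/
theorem cap [NeZero n] (ρ : PresentedGroup (build n e S P att).rel →* (X ≃o X)) {i : ZMod n}
    (hi : i ∈ S) (hk : Known (att i) (P i)) :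
    Cp X (att i).pos (ρ (cl n e S P att (o i))) (ρ (cl n e S P att (longitude e i))) ∧
      ((att i).IsPiece →
        CpS X (att i).pos (ρ (cl n e S P att (o i))) (ρ (cl n e S P att (longitude e i)))) := by
  have hg := fun w => cl_glue (e := e) (att := att) (P := P) (⟨i, hi⟩ : S) (w := w)
  have hc : Commute (ρ (cl n e S P att (o i))) (ρ (cl n e S P att (longitude e i))) := by
    show _ * _ = _ * _
    rw [← map_mul, (comm i).eq, map_mul]
  change ∀ w, w ∈ glue (o i) (longitude e i) (incl (⟨i, hi⟩ : S) (P i).mer)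
    (incl (⟨i, hi⟩ : S) (P i).lon) (att i) → _ at hg
  have leaf : ∀ s : Bool, Caps s (PresentedGroup.mk (P i).rel (P i).mer)
      (PresentedGroup.mk (P i).rel (P i).lon) →
      cl n e S P att (o i * (incl (⟨i, hi⟩ : S) (P i).mer)⁻¹) = 1 →
      cl n e S P att (longitude e i * (incl (⟨i, hi⟩ : S) (P i).lon)⁻¹) = 1 →
      Cp X s (ρ (cl n e S P att (o i))) (ρ (cl n e S P att (longitude e i))) ∧
      CpS X s (ρ (cl n e S P att (o i))) (ρ (cl n e S P att (longitude e i))) := by
    intro s hcap h1 h2
    rw [map_mul, map_inv, mul_inv_eq_one, ← iota_mk] at h1 h2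
    rw [h1, h2]
    exact ⟨(hcap X (ρ.comp (iota e att ⟨i, hi⟩))).1, (hcap X (ρ.comp (iota e att ⟨i, hi⟩))).2.1⟩
  rcases ha : att i with ⟨p, q⟩ | ⟨s, i₁, j₁, k₁, l₁⟩ | ⟨s, r, α, β, i₁, j₁, k₁, l₁⟩ |
    ⟨a, b, c, d, n', e', att'⟩
  · rw [ha] at hk hg
    refine ⟨?_, fun h => h.elim⟩
    refine cp_solid mono_aut hc hk.1.1 hk.1.2 ?_
    have h1 := congrArg ρ (hg _ rfl)
    rw [map_mul, map_zpow, map_zpow, map_mul, map_zpow, map_zpow, map_one] at h1
    exact h1
  · rw [ha] at hk hg
    obtain ⟨h1, h2⟩ := leaf s hk (hg _ (Or.inl rfl)) (hg _ (Or.inr rfl))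
    exact ⟨h1, fun _ => h2⟩
  · rw [ha] at hk hg
    obtain ⟨h1, h2⟩ := leaf s hk (hg _ (Or.inl rfl)) (hg _ (Or.inr rfl))
    exact ⟨h1, fun _ => h2⟩
  · rw [ha] at hk hg
    obtain ⟨hM, hT⟩ := hk
    have h1 : cl n e S P att (o i) = iota e att ⟨i, hi⟩ (PresentedGroup.mk _ (P i).mer ^ a *
        PresentedGroup.mk _ (P i).lon ^ b) := by
      have h := hg _ (Or.inl rfl)
      rw [map_mul, map_inv, mul_inv_eq_one, map_mul, map_zpow, map_zpow] at h
      rw [map_mul, map_zpow, map_zpow, iota_mk, iota_mk]
      exact h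
    have h2 : cl n e S P att (longitude e i) = iota e att ⟨i, hi⟩
        (PresentedGroup.mk _ (P i).mer ^ c * PresentedGroup.mk _ (P i).lon ^ d) := by
      have h := hg _ (Or.inr rfl)
      rw [map_mul, map_inv, mul_inv_eq_one, map_mul, map_zpow, map_zpow] at h
      rw [map_mul, map_zpow, map_zpow, iota_mk, iota_mk]
      exact h
    rw [h1, h2]
    rcases hM with hM | hM
    · exact ⟨hT.cp (ρ.comp (iota e att ⟨i, hi⟩)) hM, fun _ =>
        hT.cps (ρ.comp (iota e att ⟨i, hi⟩)) hM⟩
    · have k1 := hT.cp (ρ.comp (iota e att ⟨i, hi⟩)) hM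
      have k2 := hT.cps (ρ.comp (iota e att ⟨i, hi⟩)) hM
      rw [neg_word hT.comm, neg_word hT.comm, map_inv, map_inv] at k1 k2
      exact ⟨cp_neg k1, fun _ => cps_neg k2⟩

/-- A point fixed by all meridians is fixed by the group. -/
theorem gen [NeZero n] (hk : ∀ i ∈ S, Known (att i) (P i))
    (ρ : PresentedGroup (build n e S P att).rel →* (X ≃o X)) {x : X}
    (ho : ∀ i : ZMod n, ρ (cl n e S P att (o i)) x = x)
    (hm : ∀ i : ZMod n, ρ (cl n e S P att (m i)) x = x) (g) : ρ g x = x := by
  let K : Subgroup (PresentedGroup (build n e S P att).rel) :=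
    (MulAction.stabilizer (X ≃o X) x).comap ρ
  suffices h : K = ⊤ by
    have : g ∈ K := by rw [h]; exact Subgroup.mem_top g
    exact this
  rw [eq_top_iff, ← PresentedGroup.closure_range_of]
  rw [Subgroup.closure_le]
  rintro _ ⟨g, rfl⟩
  rcases g with ⟨i, _ | _⟩ | ⟨⟨i, hi⟩, g⟩
  · exact ho i
  · exact hm i
  · have hki := hk i hi
    have hg := fun w => cl_glue (e := e) (att := att) (P := P) (⟨i, hi⟩ : S) (w := w)
    change ∀ w, w ∈ glue (o i) (longitude e i) (incl (⟨i, hi⟩ : S) (P i).mer)
      (incl (⟨i, hi⟩ : S) (P i).lon) (att i) → _ at hg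
    have h5 : iota e att (⟨i, hi⟩ : S) (PresentedGroup.of g) =
        PresentedGroup.of (Sum.inr ⟨⟨i, hi⟩, g⟩ : LGen n S P) := by
      rw [iota, PresentedGroup.toGroup.of]
      rfl
    have leaf : ∀ s : Bool, Caps s (PresentedGroup.mk (P i).rel (P i).mer)
        (PresentedGroup.mk (P i).rel (P i).lon) →
        cl n e S P att (o i * (incl (⟨i, hi⟩ : S) (P i).mer)⁻¹) = 1 →
        ρ (PresentedGroup.of (Sum.inr ⟨⟨i, hi⟩, g⟩ : LGen n S P)) x = x := by
      intro s hcap h1
      rw [map_mul, map_inv, mul_inv_eq_one, ← iota_mk] at h1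
      have h3 := ho i
      rw [h1] at h3
      have h4 : ρ (iota e att ⟨i, hi⟩ (PresentedGroup.of g)) x = x :=
        (hcap X (ρ.comp (iota e att ⟨i, hi⟩))).2.2 x h3 (PresentedGroup.of g)
      rw [h5] at h4
      exact h4
    rcases ha : att i with ⟨p, q⟩ | ⟨s, i₁, j₁, k₁, l₁⟩ | ⟨s, r, α, β, i₁, j₁, k₁, l₁⟩ |
      ⟨a, b, c, d, n', e', att'⟩
    · rw [ha] at hki
      exact hki.2.elim g
    · rw [ha] at hki hg
      exact leaf s hki (hg _ (Or.inl rfl))
    · rw [ha] at hki hg
      exact leaf s hki (hg _ (Or.inl rfl))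
    · rw [ha] at hki hg
      obtain ⟨hM, hT⟩ := hki
      have h1 : cl n e S P att (o i) = iota e att ⟨i, hi⟩ (PresentedGroup.mk _ (P i).mer ^ a *
          PresentedGroup.mk _ (P i).lon ^ b) := by
        have h := hg _ (Or.inl rfl)
        rw [map_mul, map_inv, mul_inv_eq_one, map_mul, map_zpow, map_zpow] at h
        rw [map_mul, map_zpow, map_zpow, iota_mk, iota_mk]
        exact h
      have h3 := ho i
      rw [h1] at h3
      have h4 : ρ (iota e att ⟨i, hi⟩ (PresentedGroup.of g)) x = x := by
        rcases hM with hM | hM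
        · exact hT.fix_of (ρ.comp (iota e att ⟨i, hi⟩)) hM.1 h3 (PresentedGroup.of g)
        · refine hT.fix_of (ρ.comp (iota e att ⟨i, hi⟩)) hM.1 ?_ (PresentedGroup.of g)
          rw [neg_word hT.comm, map_inv]
          exact (OrderIso.symm_apply_eq _).mpr h3.symm
      have h5 : iota e att (⟨i, hi⟩ : S) (PresentedGroup.of g) =
          PresentedGroup.of (Sum.inr ⟨⟨i, hi⟩, g⟩ : LGen n S P) := by
        rw [iota, PresentedGroup.toGroup.of]
        rfl
      rw [h5] at h4
      exact h4

open Pool.Agent.TH744.Chain (tw del)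

theorem tw_eq_sum (s t : ℕ → Bool) (n : ℕ) : tw s t n = ∑ i ∈ Finset.range n, del (s i) (t i) := by
  induction n with
  | zero => rfl
  | succ n ih => rw [Finset.sum_range_succ, ← ih]; rfl

theorem sum_val [NeZero n] (F : ℕ → ℤ) : ∑ i ∈ Finset.range n, F i = ∑ x : ZMod n, F x.val := by
  symm
  refine Finset.sum_bij' (fun x _ => x.val) (fun i _ => (i : ZMod n)) ?_ ?_ ?_ ?_ ?_
  · intro x _; exact Finset.mem_range.mpr x.val_lt
  · intro i _; exact Finset.mem_univ _
  · intro x _; exact ZMod.natCast_zmod_val x
  · intro i hi; exact ZMod.val_cast_of_lt (Finset.mem_range.mp hi)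
  · intro x _; rfl

theorem tws_eq [NeZero n] {v : ℕ → Bool}
    (hv : ∀ i : ZMod n, v i.val = false ↔ i ∈ S ∧ (att i).pos = false) :
    tws (fun i : ℕ => e (i : ZMod n)) v n = D n e S att := by
  classical
  unfold tws
  rw [tw_eq_sum, sum_val]
  unfold D
  rw [Set.ncard_eq_toFinset_card', Set.ncard_eq_toFinset_card', Set.toFinset_ofPred,
    Set.toFinset_ofPred, Finset.card_filter, Finset.card_filter]
  push_cast
  rw [← Finset.sum_sub_distrib]
  refine Finset.sum_congr rfl fun x _ => ?_
  rw [ZMod.natCast_zmod_val]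
  unfold del
  by_cases h : x ∈ S ∧ (att x).pos = false
  · rw [(hv x).mpr h, if_pos h]
    cases e x <;> simp
  · have h1 : v x.val = true := by
      by_contra h2
      exact h ((hv x).mp (by simpa using h2))
    rw [h1, if_neg h]
    cases e x <;> simp

open Pool.Agent.Q138.LO in
theorem klein_caps {s : Bool} {i j k l : ℤ} (hj : 1 ≤ j)
    (hl : if s then l < -2 * j else 2 * j < l) :
    Caps s (PresentedGroup.mk (kleinPres i j k l).rel (kleinPres i j k l).mer)
      (PresentedGroup.mk (kleinPres i j k l).rel (kleinPres i j k l).lon) := by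
  have e : ∀ a b : ℤ, PresentedGroup.mk ({FreeGroup.of 0 * FreeGroup.of 1 *
      (FreeGroup.of 0)⁻¹ * FreeGroup.of 1} : Set (FreeGroup (Fin 2)))
      (FreeGroup.of 1 ^ a * FreeGroup.of 0 ^ (2 * b)) = ky ^ a * kx ^ (2 * b) := by
    intro a b
    rw [map_mul, map_zpow, map_zpow]
    rfl
  have hc : Commute ky (kx ^ (2 : ℤ)) := by
    have h1 : kx * ky * kx⁻¹ = ky⁻¹ := klein_rel
    have h2 : kx * ky⁻¹ * kx⁻¹ = ky := by
      calc kx * ky⁻¹ * kx⁻¹ = (kx * ky * kx⁻¹)⁻¹ := by group
        _ = ky := by rw [h1, inv_inv]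
    show ky * kx ^ (2 : ℤ) = kx ^ (2 : ℤ) * ky
    rw [zpow_two]
    have h3 : ky * kx = kx * ky⁻¹ := by rw [← mul_inv_eq_iff_eq_mul.mp h2]
    have h4 : ky⁻¹ * kx = kx * ky := by rw [← mul_inv_eq_iff_eq_mul.mp h1]
    rw [← mul_assoc, h3, mul_assoc, h4]
    exact (mul_assoc _ _ _).symm
  have hmul : ∀ a b a' b' : ℤ, ky ^ a * kx ^ (2 * b) * (ky ^ a' * kx ^ (2 * b')) =
      ky ^ (a + a') * kx ^ (2 * (b + b')) := by
    intro a b a' b'
    have h3 : kx ^ (2 * b) * ky ^ a' = ky ^ a' * kx ^ (2 * b) := by
      rw [zpow_mul]; exact ((hc.zpow_zpow a' b).eq).symm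
    have h4 : ky ^ (a + a') * kx ^ (2 * (b + b')) =
        ky ^ a * (ky ^ a' * kx ^ (2 * b)) * kx ^ (2 * b') := by
      rw [mul_add 2 b b', zpow_add, zpow_add]; group
    rw [h4, ← h3]; group
  have hinv : ∀ a b : ℤ, (ky ^ a * kx ^ (2 * b))⁻¹ = ky ^ (-a) * kx ^ (2 * (-b)) := by
    intro a b
    rw [inv_eq_iff_mul_eq_one, hmul]
    simp
  have E1 : PresentedGroup.mk (kleinPres i j k l).rel (kleinPres i j k l).mer =
    ky ^ i * kx ^ (2 * j) := e i j
  have E2 : PresentedGroup.mk (kleinPres i j k l).rel (kleinPres i j k l).lon =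
    ky ^ k * kx ^ (2 * l) := e k l
  change Caps (G := KleinGroup) s _ _
  rw [E1, E2]
  cases s
  · refine Caps.of_good (v := ky ^ (k - 2 * i) * kx ^ (2 * (l - 2 * j)))
      (klein_good i (k - 2 * i) hj (by simp at hl; omega)) ?_
    rw [if_neg (by simp), pow_two, hmul, hmul]
    congr 2 <;> ring
  · refine Caps.of_good (v := ky ^ (-k - 2 * i) * kx ^ (2 * (-l - 2 * j)))
      (klein_good i (-k - 2 * i) hj (by simp at hl; omega)) ?_
    rw [if_pos rfl, pow_two, hmul, hmul, hinv]
    congr 2 <;> ring

open Pool.Agent.Q138.LO in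
theorem seif_caps {s : Bool} {r : ℕ} {α β : Fin r → ℕ} {i j k l : ℤ} (hr : 2 ≤ r)
    (hβ : ∀ t, 0 < β t) (hαβ : ∀ t, β t < α t) (h1 : Cone α β i j)
    (h2 : if s then Cone α β (-k - 2 * i) (-l - 2 * j) else Cone α β (k - 2 * i) (l - 2 * j)) :
    Caps s (PresentedGroup.mk (seifPres r α β i j k l).rel (seifPres r α β i j k l).mer)
      (PresentedGroup.mk (seifPres r α β i j k l).rel (seifPres r α β i j k l).lon) := by
  have e0 : PresentedGroup.mk (seifRel r α β) (cprod r) = sc r α β := by
    unfold cprod sc
    rw [map_list_prod, List.map_ofFn]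
    rfl
  have e : ∀ a b : ℤ, PresentedGroup.mk (seifRel r α β)
      (cprod r ^ a * FreeGroup.of none ^ b) = sc r α β ^ a * sh r α β ^ b := by
    intro a b
    rw [map_mul, map_zpow, map_zpow, e0]
    rfl
  have hc : Commute (sc r α β) (sh r α β) := by
    unfold sc
    refine Commute.list_prod_left _ _ fun g hg => ?_
    obtain ⟨t, rfl⟩ := (List.mem_ofFn' _ g).mp hg
    exact seif_comm t
  have hmul : ∀ a b a' b' : ℤ, sc r α β ^ a * sh r α β ^ b * (sc r α β ^ a' * sh r α β ^ b') =
      sc r α β ^ (a + a') * sh r α β ^ (b + b') := by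
    intro a b a' b'
    have h3 : sh r α β ^ b * sc r α β ^ a' = sc r α β ^ a' * sh r α β ^ b :=
      ((hc.zpow_zpow a' b).eq).symm
    have h4 : sc r α β ^ (a + a') * sh r α β ^ (b + b') =
        sc r α β ^ a * (sc r α β ^ a' * sh r α β ^ b) * sh r α β ^ b' := by
      rw [zpow_add, zpow_add]; group
    rw [h4, ← h3]; group
  have hinv : ∀ a b : ℤ, (sc r α β ^ a * sh r α β ^ b)⁻¹ = sc r α β ^ (-a) * sh r α β ^ (-b) := by
    intro a b
    rw [inv_eq_iff_mul_eq_one, hmul]
    simp
  have E1 : PresentedGroup.mk (seifPres r α β i j k l).rel (seifPres r α β i j k l).mer =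
    sc r α β ^ i * sh r α β ^ j := e i j
  have E2 : PresentedGroup.mk (seifPres r α β i j k l).rel (seifPres r α β i j k l).lon =
    sc r α β ^ k * sh r α β ^ l := e k l
  change Caps (G := SeifGroup r α β) s _ _
  rw [E1, E2]
  cases s
  · rw [if_neg (by simp)] at h2
    refine Caps.of_good (v := sc r α β ^ (k - 2 * i) * sh r α β ^ (l - 2 * j))
      (seif_good hr hβ hαβ h1 h2) ?_
    rw [if_neg (by simp), pow_two, hmul, hmul]
    congr 2 <;> ring
  · rw [if_pos rfl] at h2
    refine Caps.of_good (v := sc r α β ^ (-k - 2 * i) * sh r α β ^ (-l - 2 * j))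
      (seif_good hr hβ hαβ h1 h2) ?_
    rw [if_pos rfl, pow_two, hmul, hmul, hinv]
    congr 2 <;> ring

/-- The group of a good piece is tame. -/
theorem known (K : Filling) : K.Good → Known K K.pres := by
  induction K with
  | solid p q => exact fun h => ⟨h, inferInstanceAs (IsEmpty Empty)⟩
  | klein s i j k l => exact fun h => klein_caps h.2.1 h.2.2
  | seifert s r α β i j k l =>
    exact fun h => seif_caps h.1 h.2.1 h.2.2.1 h.2.2.2.2.2.1 h.2.2.2.2.2.2
  | piece a b c d n e att ih =>
    rintro ⟨hn, hG, hi, hD⟩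
    haveI : NeZero n := ⟨by omega⟩
    have hk : ∀ i ∈ {i : ZMod n | i ≠ 0}, Known (att i) (att i).pres :=
      fun i hi' => ih i (hi i hi')
    refine ⟨hG.mat, ?_⟩
    · have node : Node.{0} (PresentedGroup (build n e {i | i ≠ 0} (fun i => (att i).pres) att).rel)
          n (fun i : ℕ => cl n e {i | i ≠ 0} (fun i => (att i).pres) att (o (i : ZMod n)))
          (fun i : ℕ => cl n e {i | i ≠ 0} (fun i => (att i).pres) att (m (i : ZMod n)))
          (fun i : ℕ => e (i : ZMod n)) (fun i : ℕ => (att (i : ZMod n)).pos) := by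
        refine ⟨link n e _ _ att, by omega, fun i => ?_, ?_, ?_⟩
        · rw [Nat.cast_add, ZMod.natCast_self, add_zero]
        · intro X _ ρ i hin
          rw [lon_eq]
          have h0 : ((i + 1 : ℕ) : ZMod n) ≠ 0 := by
            intro h
            rw [ZMod.natCast_eq_zero_iff] at h
            exact absurd (Nat.le_of_dvd (by omega) h) (by omega)
          exact (cap ρ (i := ((i + 1 : ℕ) : ZMod n)) h0 (hk _ h0)).1
        · intro X _ ρ x ho hm
          refine gen hk ρ (fun i => ?_) (fun i => ?_)
          · have := ho i.val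
            rwa [ZMod.natCast_zmod_val] at this
          · have := hm i.val
            rwa [ZMod.natCast_zmod_val] at this
      have ht := node.tame (by
        rw [tws_eq (S := {i | i ≠ 0}) (att := att)]
        · exact hD
        · intro i
          unfold set0
          rw [Nat.mod_eq_of_lt i.val_lt]
          by_cases h : i = 0
          · subst h; simp
          · have h1 : i.val ≠ 0 := fun h2 => h ((ZMod.val_eq_zero i).mp h2)
            rw [if_neg h1]
            show (att (i.val : ZMod n)).pos = false ↔ _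
            rw [ZMod.natCast_zmod_val]
            exact ⟨fun h3 => ⟨h, h3⟩, fun h3 => h3.2⟩)
      rw [lon_eq] at ht
      have e1 : ((n - 1 + 1 : ℕ) : ZMod n) = 0 := by
        rw [Nat.sub_add_cancel (by omega), ZMod.natCast_self]
      rw [e1, Nat.cast_zero] at ht
      exact ht

/-- Every action of the group of a closed manifold on a complete linear order is trivial. -/
theorem act_trivial [NeZero n] (hg : ∀ i, (att i).Good) (hD : |D n e Set.univ att| ≤ 1)
    (hp : ∃ i, (att i).IsPiece) (ρ : ClosedGroup n e att →* (X ≃o X)) (g : ClosedGroup n e att)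
    (x : X) : ρ g x = x := by
  have hk : ∀ i, Known (att i) (att i).pres := fun i => known (att i) (hg i)
  have hn : 1 ≤ n := NeZero.one_le
  have hl := link n e Set.univ (fun i => (att i).pres) att
  have htw : tws (fun i : ℕ => e (i : ZMod n)) (fun i : ℕ => (att (i : ZMod n)).pos) n =
      D n e Set.univ att := tws_eq fun i => by
    rw [ZMod.natCast_zmod_val]
    exact ⟨fun h => ⟨Set.mem_univ i, h⟩, fun h => h.2⟩
  have key := (hl.map ρ).closed (X := X) (s := fun i : ℕ => (att (i : ZMod n)).pos) mono_aut hn
    (fun i => by rw [Nat.cast_add, ZMod.natCast_self, add_zero])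
    (fun i _ => by
      rw [lon_map, lon_eq]
      exact (cap ρ (Set.mem_univ _) (hk _)).1)
    (by
      rw [htw]
      rcases eq_or_ne (D n e Set.univ att) 0 with h0 | h0
      · right
        refine ⟨h0, ?_⟩
        obtain ⟨j, hj⟩ := hp
        refine ⟨j.val + (n - 1), ?_⟩
        have e1 : ((j.val + (n - 1) + 1 : ℕ) : ZMod n) = j := by
          have e2 : j.val + (n - 1) + 1 = j.val + n := by omega
          rw [e2]; push_cast; rw [ZMod.natCast_zmod_val, ZMod.natCast_self, add_zero]
        rw [lon_map, lon_eq]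
        exact (cap ρ (i := ((j.val + (n - 1) + 1 : ℕ) : ZMod n)) (Set.mem_univ _) (hk _)).2
          (by rw [e1]; exact hj)
      · left
        have h1 := abs_le.mp hD
        omega) x
  refine gen (fun i _ => hk i) ρ (fun i => ?_) (fun i => ?_) g
  · have := key.2 i.val
    rw [ZMod.natCast_zmod_val] at this
    exact this
  · have := hl.mfix ρ key.1 key.2 i.val
    rwa [ZMod.natCast_zmod_val] at this

open Pool.Agent.W705.Borr in
theorem hom_trivial [NeZero n] (hg : ∀ i, (att i).Good) (hD : |D n e Set.univ att| ≤ 1)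
    (hp : ∃ i, (att i).IsPiece) (H : Type) [Group H] (hH : LeftOrderable H)
    (f : ClosedGroup n e att →* H) (g : ClosedGroup n e att) : f g = 1 := by
  classical
  obtain ⟨_, lt, hlt, hinv⟩ := hH
  let _ : LinearOrder H := linearOrderOfSTO lt
  have hinv' : ∀ a b c : H, a ≤ b ↔ c * a ≤ c * b := by
    intro a b c
    show (a = b ∨ lt a b) ↔ (c * a = c * b ∨ lt (c * a) (c * b))
    rw [mul_right_inj, ← hinv]
  let α : H →* (LowerSet H ≃o LowerSet H) :=
    { toFun := fun g => act hinv' g
      map_one' := OrderIso.ext (funext fun v => act_one hinv' v)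
      map_mul' := fun g h => OrderIso.ext (funext fun v => act_mul hinv' g h v) }
  exact eq_one_of_act hinv' _ fun v => act_trivial hg hD hp (α.comp f) g v

theorem not_lo {G : Type} [Group G]
    (h : ∀ (H : Type) [Group H], LeftOrderable H → ∀ f : G →* H, ∀ g, f g = 1) :
    ¬ LeftOrderable G := by
  intro hG
  obtain ⟨a, b, hab⟩ := hG.1
  have key := h G hG (MonoidHom.id _)
  have h1 := key a
  have h2 := key b
  simp only [MonoidHom.id_apply] at h1 h2
  exact hab (by rw [h1, h2])

end proof

/-- The fundamental group of a toroidal manifold built from exteriors of chain links, twisted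
interval bundles over the Klein bottle and Seifert fibred spaces over the disc as described is not
left-orderable, and every homomorphism from it to a left-orderable group is trivial. -/
theorem result (n : ℕ) (hn : 3 ≤ n) (e : ZMod n → Bool) (att : ZMod n → Filling)
    (hg : ∀ i, (att i).Good) (hD : |D n e Set.univ att| ≤ 1) (hp : ∃ i, (att i).IsPiece) :
    ¬ LeftOrderable (ClosedGroup n e att) ∧
    ∀ (H : Type) [Group H], LeftOrderable H → ∀ f : ClosedGroup n e att →* H, ∀ g, f g = 1 :=
  have : NeZero n := ⟨by omega⟩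
  ⟨not_lo fun H _ hH f g => hom_trivial hg hD hp H hH f g,
    fun H _ hH f g => hom_trivial hg hD hp H hH f g⟩

end Pool.Agent.Results.MP_9ae2f3_gt.TreesWithSeifertLeaves
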